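import Pool.Agent.Lib.MP_6cbb02_lc.Cantor

set_option autoImplicit false

namespace Pool.Agent.Lib.MP_6cbb02_lc

open Set Topology CantorBendixson

/-- Iterated derivative. -/
abbrev D (a : Ordinal.{0}) (K : Set (ℕ → Bool)) : Set (ℕ → Bool) := iteratedDerivedSet K a

variable {K L : Set (ℕ → Bool)} {a b : Ordinal.{0}}

lemma D_zero : D 0 K = K := iteratedDerivedSet_zero

lemma D_closed (hK : IsClosed K) (a : Ordinal.{0}) : IsClosed (D a K) :=
  isClosed_iteratedDerivedSet hK a

lemma D_succ (hK : IsClosed K) : D (a + 1) K = derivedSet (D a K) := by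
  rw [D, iteratedDerivedSet_succ, (D_closed hK a).relDerivedSet_eq]

lemma mem_D_limit (ha : Order.IsSuccLimit a) {x : ℕ → Bool} : x ∈ D a K ↔ ∀ b < a, x ∈ D b K := by
  rw [D, iteratedDerivedSet_limit ha]
  simp

lemma D_anti (h : a ≤ b) : D b K ⊆ D a K := iteratedDerivedSet_antitone K h

lemma D_subset : D a K ⊆ K := by simpa [D_zero] using D_anti (K := K) (zero_le (a := a))

lemma D_mono (h : K ⊆ L) : D a K ⊆ D a L := iteratedDerivedSet_mono h a

lemma D_empty : D a ∅ = ∅ := subset_empty_iff.1 D_subset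

lemma D_add (hK : IsClosed K) (a b : Ordinal.{0}) : D (a + b) K = D b (D a K) := by
  induction b using Ordinal.limitRecOn with
  | zero => simp [D]
  | add_one b ih => rw [← add_assoc, D_succ hK, ih, D_succ (D_closed hK a)]
  | limit b hb ih =>
    ext x
    rw [mem_D_limit (Ordinal.isSuccLimit_add a hb), mem_D_limit hb]
    constructor
    · intro h c hc
      rw [← ih c hc]
      exact h _ (by simpa using hc)
    · intro h c hc
      obtain ⟨d, hd, hcd⟩ := (Ordinal.lt_add_iff_of_isSuccLimit hb).1 hc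
      exact D_anti hcd.le (ih d hd ▸ h d hd)

lemma image_D_subset {f : (ℕ → Bool) → ℕ → Bool} (hf : Continuous f) (hK : IsClosed K)
    (hL : IsClosed L) (hi : InjOn f K) (hm : MapsTo f K L) (a : Ordinal.{0}) :
    MapsTo f (D a K) (D a L) := by
  induction a using Ordinal.limitRecOn with
  | zero => simpa [D] using hm
  | add_one a ih =>
    intro x hx
    have hxK : x ∈ K := D_subset hx
    rw [D_succ hK] at hx
    rw [D_succ hL, mem_derivedSet, accPt_iff_nhds]
    intro U hU
    obtain ⟨y, ⟨h1, h2⟩, h3⟩ := accPt_iff_nhds.1 hx _ (hf.continuousAt.preimage_mem_nhds hU)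
    exact ⟨f y, ⟨h1, ih h2⟩, fun h => h3 (hi (D_subset h2) hxK h)⟩
  | limit a ha ih =>
    intro x hx
    exact (mem_D_limit ha).2 fun b hb => ih b hb ((mem_D_limit ha).1 hx b hb)

lemma D_image_subset {f : (ℕ → Bool) → ℕ → Bool} (hf : Continuous f) (hK : IsClosed K)
    (hi : InjOn f K) (a : Ordinal.{0}) : D a (f '' K) ⊆ f '' D a K := by
  have hc : IsClosed (f '' K) := (hK.isCompact.image hf).isClosed
  induction a using Ordinal.limitRecOn with
  | zero => simp [D]
  | add_one a ih =>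
    intro y hy
    obtain ⟨x, hx, rfl⟩ := ih (D_anti le_self_add hy)
    rw [D_succ hc] at hy
    refine ⟨x, ?_, rfl⟩
    rw [D_succ hK]
    by_contra hx'
    rw [mem_derivedSet_cantor] at hx'
    push Not at hx'
    obtain ⟨n, hn⟩ := hx'
    have h1 : IsClosed (f '' (D a K ∩ {z : ℕ → Bool | ∀ i < n, z i = x i}ᶜ)) :=
      (((D_closed hK a).inter (isClopen_agree x n).compl.1).isCompact.image hf).isClosed
    have h2 : f x ∈ f '' (D a K ∩ {z : ℕ → Bool | ∀ i < n, z i = x i}ᶜ) := by
      refine h1.closure_subset (mem_closure_cantor.2 fun k => ?_)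
      obtain ⟨w, hw1, hw2, hw3⟩ := mem_derivedSet_cantor.1 hy k
      obtain ⟨z, hz, rfl⟩ := ih hw1
      refine ⟨f z, ⟨z, ⟨hz, fun h => ?_⟩, rfl⟩, hw3⟩
      obtain ⟨i, hi1, hi2⟩ := hn z hz fun h => hw2 (h ▸ rfl)
      exact hi2 (h i hi1)
    obtain ⟨z, ⟨hz1, hz2⟩, hz3⟩ := h2
    obtain rfl := hi (D_subset hz1) (D_subset hx) hz3
    exact hz2 fun _ _ => rfl
  | limit a ha ih =>
    intro y hy
    obtain ⟨x, hx, rfl⟩ := D_subset hy
    refine ⟨x, (mem_D_limit ha).2 fun b hb => ?_, rfl⟩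
    obtain ⟨z, hz, h⟩ := ih b hb ((mem_D_limit ha).1 hy b hb)
    exact hi (D_subset hz) hx h ▸ hz

lemma preperfect_subset_D {Z : Set (ℕ → Bool)} (hZ : Preperfect Z) (h : Z ⊆ K) : Z ⊆ D a K := by
  have := D_mono (a := a) h
  rwa [D, iteratedDerivedSet_constant_iff_preperfect.1 hZ a] at this

lemma countable_of_D_empty (hK : IsClosed K) (h : D a K = ∅) : K.Countable := by
  obtain ⟨V, Z, h1, h2, rfl⟩ := exists_countable_union_perfect_of_isClosed hK
  have := preperfect_subset_D (a := a) h2.acc (subset_union_right (s := V))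
  rw [h, subset_empty_iff] at this
  simpa [this] using h1

lemma interior_subset_D : interior K ⊆ D a K := by
  refine preperfect_subset_D (fun x hx => mem_derivedSet.1 (mem_derivedSet_cantor.2 fun n => ?_))
    interior_subset
  obtain ⟨k, hk⟩ := mem_nhds_cantor.1 (isOpen_interior.mem_nhds hx)
  refine ⟨Function.update x (max n k) (!x (max n k)), hk _ fun i hi => ?_, fun h => ?_,
    fun i hi => ?_⟩
  · rw [Function.update_of_ne (by omega)]
  · simpa using congrFun h (max n k)
  · rw [Function.update_of_ne (by omega)]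

lemma mem_rankFamily {P : EPi} {α : Ordinal.{0}} :
    P ∈ rankFamily α ↔ D (α + 1) P.1 = ∅ ∧ ∀ β < α, D (β + 1) P.1 ≠ ∅ := by
  constructor
  · rintro ⟨-, h1, h2⟩
    exact ⟨h1, fun β hβ h => absurd (h2 h) (not_le.2 hβ)⟩
  · rintro ⟨h1, h2⟩
    exact ⟨countable_of_D_empty P.2.isClosed h1, h1, fun β h => not_lt.1 fun hβ => h2 β hβ h⟩

end Pool.Agent.Lib.MP_6cbb02_lc
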