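import Pool.Agent.Lib.MP_6cbb02_lc.Lim

set_option autoImplicit false

namespace Pool.Agent.Lib.MP_6cbb02_lc

open Set Topology Filter

@[simp] lemma length_restrict (x : ℕ → Bool) (n : ℕ) : (restrict x n).length = n := by
  simp [restrict]

@[simp] lemma restrict_zero (x : ℕ → Bool) : restrict x 0 = [] := rfl

lemma restrict_succ (x : ℕ → Bool) (n : ℕ) : restrict x (n + 1) = restrict x n ++ [x n] := by
  simp [restrict, List.range_succ]

lemma getD_restrict {x : ℕ → Bool} {n i : ℕ} (h : i < n) : (restrict x n).getD i false = x i := by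
  simp [restrict, List.getD_eq_getElem?_getD, h]

lemma take_restrict (x : ℕ → Bool) {n i : ℕ} (h : i ≤ n) : (restrict x n).take i = restrict x i := by
  simp [restrict, ← List.map_take, List.take_range, min_eq_left h]

lemma restrict_eq_iff {x y : ℕ → Bool} {n : ℕ} :
    restrict y n = restrict x n ↔ ∀ i < n, y i = x i := by
  simp [restrict]

/-- A string followed by zeros. -/
def ext (ρ : List Bool) : ℕ → Bool := fun i => ρ.getD i false

lemma restrict_ext (ρ : List Bool) : restrict (ext ρ) ρ.length = ρ := by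
  apply List.ext_getElem (by simp)
  intro i h1 h2
  simp [restrict, ext, List.getD_eq_getElem?_getD, h2]

lemma restrict_ext_le (ρ : List Bool) {i : ℕ} (h : i ≤ ρ.length) :
    restrict (ext ρ) i = ρ.take i := by
  rw [← take_restrict _ h, restrict_ext]

lemma ext_restrict {x : ℕ → Bool} {n i : ℕ} (h : i < n) : ext (restrict x n) i = x i :=
  getD_restrict h

lemma restrict_ext_restrict (x : ℕ → Bool) {n i : ℕ} (h : i ≤ n) :
    restrict (ext (restrict x n)) i = restrict x i :=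
  restrict_eq_iff.2 fun _ hj => ext_restrict (lt_of_lt_of_le hj h)

@[fun_prop] lemma Cp.restrict_ext {α : Type} [Primcodable α] {f : α → List Bool} {g : α → ℕ}
    (hf : Cp f) (hg : Cp g) : Cp fun a => restrict (ext (f a)) (g a) := by
  have : Primrec fun z : List Bool × ℕ => restrict (ext z.1) z.2 :=
    Primrec.list_map (Primrec.list_range.comp Primrec.snd)
      ((Primrec.list_getD false).comp (Primrec.fst.comp Primrec.fst) Primrec.snd).to₂
  exact Cp.comp (f := fun z : List Bool × ℕ => restrict (ext z.1) z.2) (g := fun a => (f a, g a))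
    (cp_iff.2 this.to_comp) (by fun_prop)

lemma isClopen_agree (x : ℕ → Bool) (n : ℕ) : IsClopen {y : ℕ → Bool | ∀ i < n, y i = x i} := by
  have : {y : ℕ → Bool | ∀ i < n, y i = x i} = ⋂ i ∈ Finset.range n, (fun y => y i) ⁻¹' {x i} := by
    ext; simp
  rw [this]
  exact isClopen_biInter_finset fun i _ => (isClopen_discrete _).preimage (continuous_apply i)

lemma mem_nhds_cantor {x : ℕ → Bool} {U : Set (ℕ → Bool)} :
    U ∈ 𝓝 x ↔ ∃ n, ∀ y : ℕ → Bool, (∀ i < n, y i = x i) → y ∈ U := by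
  constructor
  · intro h
    rw [nhds_pi, Filter.mem_pi'] at h
    obtain ⟨I, t, h1, h2⟩ := h
    refine ⟨I.sup id + 1, fun y hy => h2 fun i hi => ?_⟩
    rw [hy i (Nat.lt_succ_of_le (Finset.le_sup (f := id) hi))]
    exact mem_of_mem_nhds (h1 i)
  · rintro ⟨n, h⟩
    exact mem_of_superset ((isClopen_agree x n).2.mem_nhds fun _ _ => rfl) h

lemma mem_closure_cantor {x : ℕ → Bool} {S : Set (ℕ → Bool)} :
    x ∈ closure S ↔ ∀ n, ∃ y ∈ S, ∀ i < n, y i = x i := by
  rw [mem_closure_iff_nhds]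
  constructor
  · intro h n
    obtain ⟨y, h1, h2⟩ := h _ (mem_nhds_cantor.2 ⟨n, fun _ hy => hy⟩)
    exact ⟨y, h2, h1⟩
  · intro h U hU
    obtain ⟨n, hn⟩ := mem_nhds_cantor.1 hU
    obtain ⟨y, h1, h2⟩ := h n
    exact ⟨y, hn y h2, h1⟩

lemma mem_derivedSet_cantor {x : ℕ → Bool} {S : Set (ℕ → Bool)} :
    x ∈ derivedSet S ↔ ∀ n, ∃ y ∈ S, y ≠ x ∧ ∀ i < n, y i = x i := by
  rw [mem_derivedSet, accPt_iff_nhds]
  constructor
  · intro h n
    obtain ⟨y, ⟨h1, h2⟩, h3⟩ := h _ (mem_nhds_cantor.2 ⟨n, fun _ hy => hy⟩)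
    exact ⟨y, h2, h3, h1⟩
  · intro h U hU
    obtain ⟨n, hn⟩ := mem_nhds_cantor.1 hU
    obtain ⟨y, h1, h2, h3⟩ := h n
    exact ⟨y, ⟨hn y h3, h1⟩, h2⟩

lemma continuous_cantor {f : (ℕ → Bool) → ℕ → Bool}
    (h : ∀ x n, ∃ k, ∀ y, (∀ i < k, y i = x i) → f y n = f x n) : Continuous f := by
  refine continuous_pi fun n => continuous_iff_continuousAt.2 fun x => ?_
  refine (continuousAt_const (y := f x n)).congr ?_
  obtain ⟨k, hk⟩ := h x n
  exact mem_nhds_cantor.2 ⟨k, fun y hy => (hk y hy).symm⟩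

/-- The sequences all of whose initial segments satisfy `A`. -/
def paths (A : List Bool → Prop) : Set (ℕ → Bool) := {x | ∀ n, A (restrict x n)}

lemma isClosed_paths (A : List Bool → Prop) : IsClosed (paths A) := by
  refine isClosed_of_closure_subset fun x hx n => ?_
  obtain ⟨y, h1, h2⟩ := mem_closure_cantor.1 hx n
  exact restrict_eq_iff.2 h2 ▸ h1 n

/-- Closed sets given by an `m`-fold limit computable condition on initial segments. -/
def Cl (m : ℕ) (K : Set (ℕ → Bool)) : Prop := ∃ A, Lim m A ∧ K = paths A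

lemma Cl.isClosed {m : ℕ} {K : Set (ℕ → Bool)} (h : Cl m K) : IsClosed K := by
  obtain ⟨A, -, rfl⟩ := h
  exact isClosed_paths A

lemma Cl.mono {m n : ℕ} {K : Set (ℕ → Bool)} (h : Cl m K) (hmn : m ≤ n) : Cl n K := by
  obtain ⟨A, h, rfl⟩ := h
  exact ⟨A, h.mono hmn, rfl⟩

/-- One may assume that the condition is closed under initial segments. -/
lemma Cl.tree {m : ℕ} {K : Set (ℕ → Bool)} (h : Cl m K) :
    ∃ A, Lim m A ∧ K = paths A ∧ ∀ σ i, A σ → A (σ.take i) := by
  obtain ⟨A, h, rfl⟩ := h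
  refine ⟨fun σ => ∀ i < σ.length + 1, A (σ.take i), Lim.ball (by fun_prop) (h.comp (by fun_prop)),
    ?_, fun σ i hσ j _ => ?_⟩
  · ext x
    refine ⟨fun hx n i hi => ?_, fun hx n => ?_⟩
    · rw [take_restrict _ (by simpa [Nat.lt_succ_iff] using hi)]
      exact hx i
    · simpa [take_restrict x le_rfl] using hx n n (by simp)
  · rw [List.take_take]
    by_cases hj : min j i < σ.length + 1
    · exact hσ _ hj
    · rw [List.take_of_length_le (by omega)]
      simpa using hσ σ.length (by omega)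

lemma isPi01_iff {P : Set (ℕ → Bool)} : IsPi01 P ↔ Cl 0 P := by
  constructor
  · rintro ⟨T, -, h, rfl⟩
    exact ⟨_, lim_zero.2 h, rfl⟩
  · intro h
    obtain ⟨A, h1, h2, h3⟩ := h.tree
    refine ⟨{σ | A σ}, fun σ τ h hτ => ?_, lim_zero.1 h1, h2⟩
    rw [List.prefix_iff_eq_take.1 h]
    exact h3 _ _ hτ

lemma IsPi01.isClosed {P : Set (ℕ → Bool)} (h : IsPi01 P) : IsClosed P := (isPi01_iff.1 h).isClosed

lemma Cl.inter {m : ℕ} {K L : Set (ℕ → Bool)} (h : Cl m K) (h' : Cl m L) : Cl m (K ∩ L) := by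
  obtain ⟨A, h, rfl⟩ := h
  obtain ⟨B, h', rfl⟩ := h'
  exact ⟨fun σ => A σ ∧ B σ, h.and h', by ext x; simp [paths, forall_and]⟩

lemma Cl.empty (m : ℕ) : Cl m ∅ := ⟨fun _ => False, Lim.const _, by ext x; simp [paths]⟩

lemma Cl.union {m : ℕ} {K L : Set (ℕ → Bool)} (h : Cl m K) (h' : Cl m L) : Cl m (K ∪ L) := by
  obtain ⟨A, h1, rfl, hA⟩ := h.tree
  obtain ⟨B, h2, rfl, hB⟩ := h'.tree
  refine ⟨fun σ => A σ ∨ B σ, h1.or h2, ?_⟩
  ext x
  refine ⟨fun hx n => hx.imp (fun h => h n) fun h => h n, fun hx => ?_⟩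
  by_contra hc
  simp only [mem_union, paths, mem_ofPred_eq, not_or, not_forall] at hc
  obtain ⟨⟨i, hi⟩, j, hj⟩ := hc
  rcases hx (max i j) with h | h
  · exact hi (by simpa [take_restrict x (le_max_left i j)] using hA _ i h)
  · exact hj (by simpa [take_restrict x (le_max_right i j)] using hB _ j h)

lemma isPi01_of_isClopen {C : Set (ℕ → Bool)} (hC : IsClopen C) : IsPi01 C := by
  have h1 : ∃ n, ∀ x ∈ C, ∀ y : ℕ → Bool, (∀ i < n, y i = x i) → y ∈ C := by
    have h2 : ∀ x ∈ C, ∃ n, ∀ y : ℕ → Bool, (∀ i < n, y i = x i) → y ∈ C := fun x hx =>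
      mem_nhds_cantor.1 (hC.2.mem_nhds hx)
    choose! N hN using h2
    obtain ⟨t, ht, hc⟩ := hC.1.isCompact.elim_nhds_subcover
      (fun x => {y : ℕ → Bool | ∀ i < N x, y i = x i})
      fun x _ => mem_nhds_cantor.2 ⟨N x, fun _ hy => hy⟩
    refine ⟨t.sup N, fun x hx y hy => ?_⟩
    obtain ⟨z, hz, hxz⟩ := mem_iUnion₂.1 (hc hx)
    exact hN z (ht z hz) y fun i hi => (hy i (hi.trans_le (Finset.le_sup hz))).trans (hxz i hi)
  obtain ⟨n, hn⟩ := h1
  have hfin : ((fun x => restrict x n) '' C).Finite :=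
    (List.finite_length_eq Bool n).subset (by rintro _ ⟨x, -, rfl⟩; simp)
  refine isPi01_iff.2 ⟨fun σ => σ.length = n → ∃ τ ∈ hfin.toFinset.toList, σ = τ,
    (Lim.eq (by fun_prop) (by fun_prop)).imp
      (Lim.bex_mem (by fun_prop) (Lim.eq (by fun_prop) (by fun_prop))), ?_⟩
  ext x
  simp only [paths, mem_ofPred_eq, length_restrict, Finset.mem_toList, Finite.mem_toFinset,
    mem_image, exists_eq_right', forall_eq]
  exact ⟨fun hx => ⟨x, hx, rfl⟩, fun ⟨y, hy, h⟩ => hn y hy x (restrict_eq_iff.1 h.symm)⟩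

/-- The set `K` has an element extending the string `σ`. -/
def Hit (K : Set (ℕ → Bool)) (σ : List Bool) : Prop := ∃ x ∈ K, restrict x σ.length = σ

lemma hit_paths_iff {A : List Bool → Prop} {σ : List Bool} : Hit (paths A) σ ↔
    ∀ n, ∃ ρ, restrict (ext ρ) σ.length = σ ∧ ∀ i < n, A (restrict (ext ρ) i) := by
  constructor
  · rintro ⟨x, h1, h2⟩ n
    refine ⟨restrict x (max n σ.length), ?_, fun i hi => ?_⟩
    · rw [restrict_ext_restrict _ (le_max_right _ _), h2]
    · rw [restrict_ext_restrict _ (by omega)]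
      exact h1 i
  · intro h
    let t : ℕ → Set (ℕ → Bool) := fun n =>
      paths fun τ => (τ.length = σ.length → τ = σ) ∧ (τ.length < n → A τ)
    obtain ⟨x, hx⟩ := IsCompact.nonempty_iInter_of_sequence_nonempty_isCompact_isClosed t
      (fun n x hx i => ⟨(hx i).1, fun h => (hx i).2 (by omega)⟩)
      (fun n => by
        obtain ⟨ρ, h1, h2⟩ := h n
        refine ⟨ext ρ, fun i => ⟨fun hi => ?_, fun hi => h2 i (by simpa using hi)⟩⟩
        rw [length_restrict] at hi
        rw [hi, h1])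
      (isClosed_paths _).isCompact fun _ => isClosed_paths _
    rw [mem_iInter] at hx
    exact ⟨x, fun n => (hx (n + 1) n).2 (by simp), (hx 0 σ.length).1 (by simp)⟩

lemma Lim.hit {β : Type} [Primcodable β] {m : ℕ} {A : β → List Bool → Prop}
    (hA : Lim m fun z : β × List Bool => A z.1 z.2) :
    Lim (m + 2) fun z : β × List Bool => Hit (paths (A z.1)) z.2 := by
  simp only [hit_paths_iff]
  refine Lim.all (Lim.ex (Lim.and (Lim.eq (by fun_prop) (by fun_prop)) (Lim.ball (by fun_prop) ?_)))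
  exact hA.comp (f := fun z : (((β × List Bool) × ℕ) × List Bool) × ℕ =>
    (z.1.1.1.1, restrict (ext z.1.2) z.2)) (by fun_prop)

lemma Cl.hit {m : ℕ} {K : Set (ℕ → Bool)} (h : Cl m K) : Lim (m + 2) (Hit K) := by
  obtain ⟨A, h, rfl⟩ := h
  exact (Lim.hit (β := Unit) (A := fun _ => A) (h.comp (by fun_prop))).comp
    (f := fun σ => ((), σ)) (by fun_prop)

lemma Cl.derivedSet {m : ℕ} {K : Set (ℕ → Bool)} (h : Cl m K) : Cl (m + 4) (derivedSet K) := by
  have hh := h.hit
  refine ⟨fun σ => ∃ τ₁ τ₂ : List Bool, (Hit K τ₁ ∧ Hit K τ₂) ∧ (τ₁.length = τ₂.length ∧ ¬ τ₁ = τ₂) ∧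
    τ₁.take σ.length = σ ∧ τ₂.take σ.length = σ, ?_, ?_⟩
  · exact Lim.ex (Lim.ex (((hh.comp (by fun_prop)).and (hh.comp (by fun_prop))).and
      (((Lim.eq (by fun_prop) (by fun_prop)).and (Lim.eq (by fun_prop) (by fun_prop)).not).and
        ((Lim.eq (by fun_prop) (by fun_prop)).and (Lim.eq (by fun_prop) (by fun_prop))))))
  · ext x
    constructor
    · intro hx n
      have hxK : x ∈ K := (isClosed_iff_derivedSet_subset K).1 h.isClosed hx
      obtain ⟨y, h1, h2, h3⟩ := mem_derivedSet_cantor.1 hx n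
      obtain ⟨i, hi⟩ := Function.ne_iff.1 h2
      have hni : n ≤ i := by
        by_contra hc
        exact hi (h3 i (by omega))
      refine ⟨restrict x (i + 1), restrict y (i + 1), ⟨⟨x, hxK, by simp⟩, y, h1, by simp⟩,
        ⟨by simp, fun h => hi (restrict_eq_iff.1 h i (by omega)).symm⟩, ?_, ?_⟩
      · rw [length_restrict, take_restrict _ (by omega)]
      · rw [length_restrict, take_restrict _ (by omega), restrict_eq_iff.2 h3]
    · intro hx
      refine mem_derivedSet_cantor.2 fun n => ?_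
      obtain ⟨τ₁, τ₂, ⟨⟨y, hy, e1⟩, z, hz, e2⟩, ⟨h1, h2⟩, h3, h4⟩ := hx n
      rw [length_restrict] at h3 h4
      have hn : n ≤ τ₁.length := by
        have := congrArg List.length h3
        simp at this
        omega
      rw [← e1, take_restrict _ hn] at h3
      rw [← e2, take_restrict _ (h1 ▸ hn)] at h4
      by_cases hyx : y = x
      · refine ⟨z, hz, fun hzx => h2 ?_, restrict_eq_iff.1 h4⟩
        rw [← e1, ← e2, h1, hyx, hzx]
      · exact ⟨y, hy, hyx, restrict_eq_iff.1 h3⟩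

end Pool.Agent.Lib.MP_6cbb02_lc
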