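import Mathlib

set_option autoImplicit false

namespace Pool.Agent.Lib.MP_6cbb02_lc

open FirstOrder

/-- The string of the first `n` bits of `x`. -/
def restrict (x : ℕ → Bool) (n : ℕ) : List Bool := (List.range n).map x

/-- A `Π⁰₁` class: the set of infinite paths through a computable tree of binary strings. -/
def IsPi01 (P : Set (ℕ → Bool)) : Prop :=
  ∃ T : Set (List Bool), (∀ σ τ : List Bool, σ <+: τ → τ ∈ T → σ ∈ T) ∧
    ComputablePred (fun σ => σ ∈ T) ∧ P = {x | ∀ n, restrict x n ∈ T}

/-- The `Π⁰₁` classes, ordered by inclusion. -/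
abbrev EPi : Type := {P : Set (ℕ → Bool) // IsPi01 P}

/-- A family of `Π⁰₁` classes is definable if it is the set of realizations in `(EPi, ≤)` of a
first-order formula in one free variable, without parameters, in the language `{≤}`. -/
def IsDefinable (F : Set EPi) : Prop :=
  letI := Language.orderStructure EPi
  ∃ φ : Language.order.Formula Unit, F = {P | φ.Realize fun _ => P}

/-- A family of `Π⁰₁` classes is invariant if every automorphism of `(EPi, ≤)` maps it onto
itself. -/
def IsInvariant (F : Set EPi) : Prop := ∀ Φ : EPi ≃o EPi, Φ '' F = F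

/-- The countable `Π⁰₁` classes of Cantor-Bendixson rank `α`: `α` is the least ordinal `β` such
that the derivative of order `β + 1` is empty. -/
def rankFamily (α : Ordinal.{0}) : Set EPi :=
  {P | P.1.Countable ∧
    IsLeast {β : Ordinal.{0} | CantorBendixson.iteratedDerivedSet P.1 (β + 1) = ∅} α}

/-- A computable ordinal: the order type of a computable well-ordering of a computable set of
natural numbers. -/
def IsComputableOrdinal (α : Ordinal.{0}) : Prop :=
  ∃ (S : Set ℕ) (r : ℕ → ℕ → Prop), ComputablePred (fun n => n ∈ S) ∧
    ComputablePred (fun p : ℕ × ℕ => r p.1 p.2) ∧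
    ∃ _ : IsWellOrder S (fun a b => r a.1 b.1), Ordinal.type (fun a b : S => r a.1 b.1) = α

/-- The Church-Kleene ordinal: the least ordinal that is not computable. -/
noncomputable def omega1CK : Ordinal.{0} := sInf {α | ¬ IsComputableOrdinal α}

end Pool.Agent.Lib.MP_6cbb02_lc
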