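import Pool.Agent.Lib.MP_6cbb02_lc.Fam

set_option autoImplicit false

namespace Pool.Agent.Lib.MP_6cbb02_lc

open Set Topology FirstOrder

/-- Parameter-free first-order definability of a relation between classes. -/
def Dfn {α : Type} (p : (α → EPi) → Prop) : Prop :=
  letI := Language.orderStructure EPi
  (∅ : Set EPi).Definable Language.order {v | p v}

namespace Dfn

variable {α β : Type} {p q : (α → EPi) → Prop}

lemma of_iff (hp : Dfn p) (h : ∀ v, p v ↔ q v) : Dfn q :=
  (funext fun a => propext (h a) : p = q) ▸ hp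

lemma not (hp : Dfn p) : Dfn fun v => ¬ p v :=
  letI := Language.orderStructure EPi
  Definable.compl hp

lemma and (hp : Dfn p) (hq : Dfn q) : Dfn fun v => p v ∧ q v :=
  letI := Language.orderStructure EPi
  Definable.inter hp hq

lemma imp (hp : Dfn p) (hq : Dfn q) : Dfn fun v => p v → q v :=
  (hp.and hq.not).not.of_iff fun a => by tauto

lemma or (hp : Dfn p) (hq : Dfn q) : Dfn fun v => p v ∨ q v :=
  (hp.not.and hq.not).not.of_iff fun a => by tauto

lemma le (i j : α) : Dfn fun v : α → EPi => v i ≤ v j := by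
  let := Language.orderStructure EPi
  have : Language.order.OrderedStructure EPi := ⟨fun _ => Iff.rfl⟩
  refine empty_definable_iff.2 ⟨Language.Term.le (.var (.inl i)) (.var (.inl j)), ?_⟩
  ext v
  simp [Language.Formula.Realize]

lemma reindex (hp : Dfn p) (f : α → β) : Dfn fun w : β → EPi => p fun a => w (f a) :=
  letI := Language.orderStructure EPi
  Definable.preimage_comp f hp

lemma allFin [Finite β] {p : (α → EPi) → (β → EPi) → Prop}
    (h : Dfn fun w : α ⊕ β → EPi => p (fun a => w (.inl a)) fun b => w (.inr b)) :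
    Dfn fun v => ∀ u, p v u :=
  letI := Language.orderStructure EPi
  Definable.forall_of_finite h

lemma all {p : (α → EPi) → EPi → Prop}
    (h : Dfn fun w : Option α → EPi => p (fun a => w (some a)) (w none)) :
    Dfn fun v => ∀ x, p v x :=
  (allFin (β := Unit) (p := fun v u => p v (u ()))
    (h.reindex (β := α ⊕ Unit) fun o => Option.elim o (Sum.inr ()) Sum.inl)).of_iff
    fun _ => ⟨fun h x => h fun _ => x, fun h _ => h _⟩

lemma ex {p : (α → EPi) → EPi → Prop}
    (h : Dfn fun w : Option α → EPi => p (fun a => w (some a)) (w none)) :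
    Dfn fun v => ∃ x, p v x :=
  (all (p := fun v x => ¬ p v x) h.not).not.of_iff fun _ => by push Not; rfl

lemma disjoint (i j : α) : Dfn fun v : α → EPi => Disjoint (v i).1 (v j).1 :=
  (all ((le _ _).imp ((le _ _).imp (all (le _ _))))).of_iff fun _ => (disjoint_iff_le _ _).symm

lemma cover (i j : α) : Dfn fun v : α → EPi => (v i).1 ∪ (v j).1 = univ :=
  (all ((le _ _).imp ((le _ _).imp (all (le _ _))))).of_iff fun _ => (cover_iff_le _ _).symm

lemma isClopen (i : α) : Dfn fun v : α → EPi => IsClopen (v i).1 :=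
  (ex ((disjoint _ _).and (cover _ _))).of_iff fun _ => (isClopen_iff_le _).symm

end Dfn

attribute [irreducible] Dfn

/-- A definable family of closed sets. -/
def DSet {α : Type} (K : (α → EPi) → Set (ℕ → Bool)) : Prop :=
  (∀ v, IsClosed (K v)) ∧ Dfn fun w : Option α → EPi => Disjoint (w none).1 (K fun a => w (some a))

lemma exists_nhd {x : ℕ → Bool} {U : Set (ℕ → Bool)} (hU : IsOpen U) (hx : x ∈ U) :
    ∃ C : EPi, IsClopen C.1 ∧ x ∈ C.1 ∧ C.1 ⊆ U := by
  obtain ⟨n, hn⟩ := mem_nhds_cantor.1 (hU.mem_nhds hx)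
  exact ⟨.ofClopen (isClopen_agree x n), isClopen_agree x n, fun _ _ => rfl, hn⟩

namespace DSet

variable {α β : Type} {K L : (α → EPi) → Set (ℕ → Bool)}

lemma disj (hK : DSet K) (f : α → β) (i : β) :
    Dfn fun w : β → EPi => Disjoint (w i).1 (K fun a => w (f a)) :=
  hK.2.reindex fun o => Option.elim o i f

lemma reindex (hK : DSet K) (f : α → β) : DSet fun w : β → EPi => K fun a => w (f a) :=
  ⟨fun _ => hK.1 _, hK.disj (fun a => some (f a)) none⟩

lemma var (i : α) : DSet fun v : α → EPi => (v i).1 :=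
  ⟨fun v => (v i).2.isClosed, Dfn.disjoint _ _⟩

lemma inter_var (hK : DSet K) (i : α) : DSet fun v => (v i).1 ∩ K v := by
  refine ⟨fun v => (v i).2.isClosed.inter (hK.1 v), (Dfn.all (p := fun w S => S ≤ w none →
    S ≤ w (some i) → Disjoint S.1 (K fun a => w (some a))) ((Dfn.le _ _).imp ((Dfn.le _ _).imp
      (hK.disj (fun a => some (some a)) none)))).of_iff fun w => ⟨fun h => ?_, fun h S h1 h2 => ?_⟩⟩
  · have := h ((w none).inter (w (some i))) inter_subset_left inter_subset_right
    exact disjoint_left.2 fun x h1 h2 => disjoint_left.1 this ⟨h1, h2.1⟩ h2.2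
  · exact disjoint_left.2 fun x h3 h4 => disjoint_left.1 h (h1 h3) ⟨h2 h3, h4⟩

lemma closure_diff (hK : DSet K) (i : α) : DSet fun v => closure (K v \ (v i).1) := by
  refine ⟨fun v => isClosed_closure, (Dfn.ex (p := fun w C => IsClopen C.1 ∧ w none ≤ C ∧
    ∀ S : EPi, S ≤ C → Disjoint S.1 (w (some i)).1 → Disjoint S.1 (K fun a => w (some a)))
      ((Dfn.isClopen _).and ((Dfn.le _ _).and (Dfn.all ((Dfn.le _ _).imp ((Dfn.disjoint _ _).imp
        (hK.disj (fun a => some (some (some a))) none))))))).of_iff fun w => ⟨?_, fun h => ?_⟩⟩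
  · rintro ⟨C, h1, h2, h3⟩
    refine Disjoint.mono_left h2 (Disjoint.closure_right ?_ h1.2)
    refine disjoint_left.2 fun x hx hx' => ?_
    obtain ⟨S, -, e1, e2⟩ := exists_nhd (h1.2.inter (w (some i)).2.isClosed.isOpen_compl)
      ⟨hx, hx'.2⟩
    exact disjoint_left.1 (h3 S (fun y hy => (e2 hy).1) (disjoint_left.2 fun y hy => (e2 hy).2))
      e1 hx'.1
  · obtain ⟨C, h1, h2, h3⟩ := exists_clopen_of_closed_subset_open (w none).2.isClosed
      isClosed_closure.isOpen_compl (disjoint_left.1 h)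
    exact ⟨.ofClopen h1, h1, h2, fun S e1 e2 => disjoint_left.2 fun x hx hx' =>
      h3 (e1 hx) (subset_closure ⟨hx', disjoint_left.1 e2 hx⟩)⟩

lemma fam : ∀ k, DSet (Fam k)
  | 0 => var ()
  | k + 1 => (((fam k).reindex some).closure_diff none).inter_var none

lemma subset (hK : DSet K) (hL : DSet L) : Dfn fun v => K v ⊆ L v := by
  refine (Dfn.all (p := fun v C => Disjoint C.1 (L v) → Disjoint C.1 (K v))
    (hL.2.imp hK.2)).of_iff fun v => ⟨fun h x hx => ?_, fun h C hC => hC.mono_right h⟩
  by_contra hc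
  obtain ⟨C, -, e1, e2⟩ := exists_nhd (hL.1 v).isOpen_compl hc
  exact disjoint_left.1 (h C (disjoint_left.2 e2)) e1 hx

lemma eq_empty (hK : DSet K) : Dfn fun v => K v = ∅ :=
  (Dfn.all (p := fun v C => Disjoint C.1 (K v)) hK.2).of_iff fun v =>
    ⟨fun h => univ_disjoint.1 (h (.ofClopen isClopen_univ)), fun h _ => by simp [h]⟩

lemma subsingleton (hK : DSet K) : Dfn fun v => (K v).Subsingleton := by
  refine (Dfn.all (p := fun v C => ∀ C' : EPi, Disjoint C.1 C'.1 →
    Disjoint C.1 (K v) ∨ Disjoint C'.1 (K v)) (Dfn.all ((Dfn.disjoint _ _).imp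
      ((hK.disj (fun a => some (some a)) (some none)).or
        (hK.disj (fun a => some (some a)) none))))).of_iff fun v =>
          ⟨fun h x hx y hy => ?_, fun h C C' hC => ?_⟩
  · by_contra hc
    obtain ⟨C, e0, e1, e2⟩ := exists_nhd (isOpen_compl_singleton (x := y)) hc
    rcases h C (.ofClopen e0.compl) disjoint_compl_right with h | h
    · exact disjoint_left.1 h e1 hx
    · exact disjoint_left.1 h (fun h' => e2 h' rfl) hy
  · by_contra hc
    simp only [not_or, not_disjoint_iff] at hc
    obtain ⟨⟨x, h1, h2⟩, y, h3, h4⟩ := hc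
    exact disjoint_left.1 hC h1 (h h2 h4 ▸ h3)

lemma subset_derived (hK : DSet K) (hL : DSet L) : Dfn fun v => K v ⊆ derivedSet (L v) := by
  refine ((hK.subset hL).and (Dfn.all (p := fun v C => IsClopen C.1 → (C.1 ∩ L v).Subsingleton →
    Disjoint C.1 (K v)) ((Dfn.isClopen _).imp ((((hL.reindex some).inter_var none).subsingleton).imp
      hK.2)))).of_iff fun v => ⟨?_, fun h => ⟨h.trans
        ((isClosed_iff_derivedSet_subset _).1 (hL.1 v)), fun C h1 h2 => ?_⟩⟩
  · rintro ⟨h1, h2⟩ x hx
    refine mem_derivedSet_cantor.2 fun n => ?_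
    by_contra hc
    refine disjoint_left.1 (h2 (.ofClopen (isClopen_agree x n)) (isClopen_agree x n) ?_)
      (fun _ _ => rfl) hx
    refine subsingleton_of_forall_eq x fun y hy => ?_
    by_contra hne
    exact hc ⟨y, hy.2, hne, hy.1⟩
  · refine disjoint_left.2 fun x hx hx' => ?_
    obtain ⟨y, ⟨e1, e2⟩, e3⟩ := accPt_iff_nhds.1 (h hx') _ (h1.2.mem_nhds hx)
    exact e3 (h2 ⟨e1, e2⟩ ⟨hx, (isClosed_iff_derivedSet_subset _).1 (hL.1 v) (h hx')⟩)

lemma derived (hK : DSet K) (m : ℕ) (hm : ∀ v (R : EPi), ∃ u, Fam m u = R.1 ∩ derivedSet (K v)) :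
    DSet fun v => derivedSet (K v) := by
  refine ⟨fun v => isClosed_derivedSet _, (Dfn.allFin (β := Par m) (p := fun w u =>
    Fam m u ⊆ (w none).1 → Fam m u ⊆ derivedSet (K fun a => w (some a)) → Fam m u = ∅)
    ((((fam m).reindex Sum.inr).subset (var _)).imp
      ((((fam m).reindex Sum.inr).subset_derived (hK.reindex fun a => .inl (some a))).imp
        ((fam m).reindex Sum.inr).eq_empty))).of_iff fun w => ⟨fun h => ?_, fun h u h1 h2 => ?_⟩⟩
  · obtain ⟨u, hu⟩ := hm (fun a => w (some a)) (w none)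
    exact disjoint_iff_inter_eq_empty.2
      (hu ▸ h u (hu ▸ inter_subset_left) (hu ▸ inter_subset_right))
  · exact subset_empty_iff.1 fun x hx => disjoint_left.1 h (h1 hx) (h2 hx)

lemma guard (hK : DSet K) {p : (α → EPi) → Prop} (hp : Dfn p) :
    DSet fun v => K v ∩ {_x | p v} := by
  refine ⟨fun v => (hK.1 v).inter isClosed_const,
    ((hp.reindex some).imp hK.2).of_iff fun w => ?_⟩
  by_cases h : p fun a => w (some a) <;> simp [h]

end DSet

lemma dfn_interior : Dfn fun v : Unit → EPi => interior (v ()).1 = ∅ := by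
  refine (Dfn.all (p := fun v C => IsClopen C.1 → C ≤ v () → Disjoint C.1 C.1)
    ((Dfn.isClopen _).imp ((Dfn.le _ _).imp (Dfn.disjoint _ _)))).of_iff
      fun v => ⟨fun h => eq_empty_iff_forall_notMem.2 fun x hx => ?_, fun h C h1 h2 => ?_⟩
  · obtain ⟨C, e0, e1, e2⟩ := exists_nhd isOpen_interior hx
    exact disjoint_left.1 (h C e0 (e2.trans interior_subset)) e1 e1
  · exact disjoint_left.2 fun x hx _ => by simpa [h] using interior_maximal h2 h1.2 hx

lemma cl_D {P : Set (ℕ → Bool)} (hP : IsPi01 P) (n : ℕ) : Cl (4 * n) (D n P) := by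
  induction n with
  | zero => simpa [D] using isPi01_iff.1 hP
  | succ n ih =>
    rw [Nat.cast_succ, D_succ hP.isClosed]
    exact ih.derivedSet

lemma dset_D (n : ℕ) :
    DSet fun v : Unit → EPi => D n (v ()).1 ∩ {_x | interior (v ()).1 = ∅} := by
  induction n with
  | zero => simpa [D] using (DSet.var ()).guard dfn_interior
  | succ n ih =>
    have e : ∀ v : Unit → EPi, D (n + 1 : ℕ) (v ()).1 ∩ {_x | interior (v ()).1 = ∅} =
        derivedSet (D n (v ()).1 ∩ {_x | interior (v ()).1 = ∅}) := by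
      intro v
      by_cases h : interior (v ()).1 = ∅
      · simp [h, D_succ (v ()).2.isClosed]
      · simp [h, derivedSet, AccPt, Filter.neBot_iff]
    simp only [e]
    refine ih.derived (4 * (n + 1)) fun v R => ?_
    rw [← e]
    by_cases h : interior (v ()).1 = ∅
    · refine exists_fam _ (P := (v ()).1) ?_ (v ()).2 h fun x hx => D_subset hx.2.1
      simpa [h] using ((isPi01_iff.1 R.2).mono (Nat.zero_le _)).inter (cl_D (v ()).2 (n + 1))
    · refine exists_fam _ (P := ∅) ?_ (isPi01_iff.2 (Cl.empty 0)) interior_empty (by simp [h])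
      simpa [h] using Cl.empty _

lemma dfn_D_empty (n : ℕ) : Dfn fun v : Unit → EPi => D n (v ()).1 = ∅ := by
  refine (dfn_interior.and (dset_D n).eq_empty).of_iff fun v => ⟨fun h => ?_, fun h => ?_⟩
  · simpa [h.1] using h.2
  · exact ⟨subset_empty_iff.1 (h ▸ interior_subset_D), by simp [h]⟩

lemma isDefinable_iff {F : Set EPi} : IsDefinable F ↔ Dfn fun v : Unit → EPi => v () ∈ F := by
  let := Language.orderStructure EPi
  unfold IsDefinable Dfn
  rw [empty_definable_iff]
  refine exists_congr fun φ => ⟨?_, fun h => ?_⟩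
  · rintro rfl
    rfl
  · ext P
    exact Set.ext_iff.1 h fun _ => P

theorem isDefinable_rankFamily_nat (n : ℕ) : IsDefinable (rankFamily n) := by
  rw [isDefinable_iff]
  cases n with
  | zero => exact (dfn_D_empty 1).of_iff fun v => by simp [mem_rankFamily]
  | succ n =>
    refine ((dfn_D_empty (n + 2)).and (dfn_D_empty (n + 1)).not).of_iff fun v => ?_
    rw [mem_rankFamily]
    have e : ((n + 2 : ℕ) : Ordinal.{0}) = (n + 1 : ℕ) + 1 := Nat.cast_succ (n + 1)
    rw [e]
    refine and_congr_right fun _ => ⟨fun h β hβ h' => h (subset_empty_iff.1 ?_), fun h => ?_⟩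
    · exact h' ▸ D_anti (Order.add_one_le_of_lt hβ)
    · simpa using h n (by simp)

theorem isDefinable_empty : IsDefinable ∅ :=
  isDefinable_iff.2 ((Dfn.le () ()).not.of_iff fun v => by simp)

end Pool.Agent.Lib.MP_6cbb02_lc
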