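import Pool.Agent.Lib.MP_6cbb02_lc.Invar

set_option autoImplicit false

namespace Pool.Agent.Lib.MP_6cbb02_lc

open Set Topology Encodable

lemma Cl.of_forall {m : ℕ} {q : List Bool → ℕ → Prop}
    (hq : Lim m fun z : List Bool × ℕ => q z.1 z.2) : Cl m {x | ∀ l S, q (restrict x l) S} := by
  refine ⟨fun σ => ∀ l < σ.length + 1, ∀ S < σ.length + 1, q (σ.take l) S,
    Lim.ball (by fun_prop) (Lim.ball (by fun_prop) (hq.comp
      (f := fun z : (List Bool × ℕ) × ℕ => (z.1.1.take z.1.2, z.2)) (by fun_prop))), ?_⟩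
  ext x
  refine ⟨fun hx n l hl S _ => ?_, fun hx l S => ?_⟩
  · rw [take_restrict _ (by simpa [Nat.lt_succ_iff] using hl)]
    exact hx l S
  · have := hx (max l S) l (by simp) S (by simp)
    rwa [take_restrict _ (le_max_left _ _)] at this

lemma forall_bex_iff {n : ℕ} {r : ℕ → ℕ → Prop} {b : ℕ → Prop} :
    (∀ S, ∃ j < n, (∀ s < S, r j s) ∧ b j) ↔ ∃ j < n, (∀ s, r j s) ∧ b j := by
  refine ⟨fun h => ?_, fun ⟨j, h1, h2, h3⟩ _ => ⟨j, h1, fun s _ => h2 s, h3⟩⟩
  by_contra hc
  have : ∀ j, ∃ s, j < n → b j → ¬ r j s := by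
    intro j
    by_contra h'
    push Not at h'
    exact hc ⟨j, (h' 0).1, fun s => (h' s).2.2, (h' 0).2.1⟩
  choose s hs using this
  obtain ⟨j, h1, h2, h3⟩ := h ((Finset.range n).sup s + 1)
  exact hs j h1 h3 (h2 _ (Nat.lt_succ_of_le (Finset.le_sup (Finset.mem_range.2 h1))))

/-- The first string along a path that leaves the tree. -/
def Exit (A : List Bool → Prop) (ρ : List Bool) : Prop := ¬ A ρ ∧ ∀ i < ρ.length, A (ρ.take i)

lemma exists_exit {A : List Bool → Prop} {y : ℕ → Bool} (hy : y ∉ paths A) :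
    ∃ l, Exit A (restrict y l) := by
  classical
  have h : ∃ l, ¬ A (restrict y l) := by simpa [paths] using hy
  refine ⟨Nat.find h, Nat.find_spec h, fun i hi => ?_⟩
  rw [length_restrict] at hi
  rw [take_restrict _ hi.le]
  simpa using Nat.find_min h hi

lemma Exit.unique {A : List Bool → Prop} {y : ℕ → Bool} {l l' : ℕ} (h : Exit A (restrict y l))
    (h' : Exit A (restrict y l')) : l = l' := by
  rcases lt_trichotomy l l' with hl | hl | hl
  · exact absurd (take_restrict y hl.le ▸ h'.2 l (by simpa using hl)) h.1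
  · exact hl
  · exact absurd (take_restrict y hl.le ▸ h.2 l' (by simpa using hl)) h'.1

theorem exists_lower {m : ℕ} {K P : Set (ℕ → Bool)} (hK : Cl (m + 1) K) (hP : IsPi01 P)
    (hi : interior P = ∅) (hKP : K ⊆ P) :
    ∃ K' P', Cl m K' ∧ IsPi01 P' ∧ interior P' = ∅ ∧ K' ⊆ P' ∧ K = P ∩ closure (K' \ P) := by
  classical
  obtain ⟨T, hT, rfl, hTt⟩ := hK.tree
  obtain ⟨A, hA, rfl, hAt⟩ := (isPi01_iff.1 hP).tree
  obtain ⟨g, hg, hlim⟩ := lim_succ.1 hT
  have hA' : Lim m A := hA.mono (Nat.zero_le _)
  have hE : Lim m (Exit A) := hA'.not.and (Lim.ball (by fun_prop) (hA'.comp (by fun_prop)))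
  let B : List Bool → ℕ → Prop := fun ρ j => ∀ c < encode ρ, encode (dec (List Bool) c) = c →
    Exit A (dec (List Bool) c) → (dec (List Bool) c).take j = ρ.take j →
      ∃ s < encode ρ, c ≤ s ∧ ¬ g (ρ.take j, s)
  have hB : Lim m fun z : List Bool × ℕ => B z.1 z.2 :=
    Lim.ball (by fun_prop) ((Lim.eq (by fun_prop) (by fun_prop)).imp ((hE.comp (by fun_prop)).imp
      ((Lim.eq (by fun_prop) (by fun_prop)).imp (Lim.bex (by fun_prop)
        ((Lim.le (by fun_prop) (by fun_prop)).and (hg.comp (by fun_prop)).not)))))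
  let G : List Bool → ℕ → Prop := fun ρ j => (∀ s, encode ρ ≤ s → g (ρ.take j, s)) ∧ B ρ j
  let P' : Set (ℕ → Bool) := {x | ∀ i, x i = true → A (restrict x i)}
  have hP' : Cl 0 P' := by
    refine ⟨fun σ => ∀ i < σ.length, σ.getD i false = true → A (σ.take i),
      Lim.ball (by fun_prop) ((Lim.eq (by fun_prop) (by fun_prop)).imp (hA.comp (by fun_prop))), ?_⟩
    ext x
    refine ⟨fun hx n i hi h => ?_, fun hx i h => ?_⟩
    · rw [length_restrict] at hi
      rw [take_restrict _ hi.le]
      exact hx i ((getD_restrict hi).symm.trans h)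
    · have := hx (i + 1) i (by simp) (by rw [getD_restrict (by omega), h])
      rwa [take_restrict _ (by omega)] at this
  have hdense : ∀ (x : ℕ → Bool) n, ∃ y ∉ paths A, ∀ i < n, y i = x i := by
    intro x n
    have : x ∈ closure (paths A)ᶜ := by rw [closure_compl, hi]; simp
    exact mem_closure_cantor.1 this n
  refine ⟨P' ∩ {x | ∀ l, Exit A (restrict x l) → ∃ j < l + 1, G (restrict x l) j}, P',
    (hP'.mono (Nat.zero_le _)).inter ?_, isPi01_iff.2 hP', ?_, inter_subset_left, ?_⟩
  · have := Cl.of_forall (m := m) (q := fun ρ S => Exit A ρ → ∃ j < ρ.length + 1,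
        (∀ s < S, encode ρ ≤ s → g (ρ.take j, s)) ∧ B ρ j)
      ((hE.comp (by fun_prop)).imp (Lim.bex (by fun_prop) ((Lim.ball (by fun_prop)
        ((Lim.le (by fun_prop) (by fun_prop)).imp (hg.comp (by fun_prop)))).and
          (hB.comp (f := fun z : (List Bool × ℕ) × ℕ => (z.1.1, z.2)) (by fun_prop)))))
    have e : {x : ℕ → Bool | ∀ l, Exit A (restrict x l) → ∃ j < l + 1, G (restrict x l) j} =
        {x | ∀ l S, Exit A (restrict x l) → ∃ j < (restrict x l).length + 1,
          (∀ s < S, encode (restrict x l) ≤ s → g ((restrict x l).take j, s)) ∧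
            B (restrict x l) j} := by
      ext x
      refine forall_congr' fun l => ?_
      rw [forall_comm, length_restrict]
      exact imp_congr_right fun _ => forall_bex_iff.symm
    rw [e]
    exact this
  · rw [eq_empty_iff_forall_notMem]
    intro x hx
    obtain ⟨k, hk⟩ := mem_nhds_cantor.1 (mem_interior_iff_mem_nhds.1 hx)
    obtain ⟨y, hy, hyx⟩ := hdense x k
    obtain ⟨l, hl, -⟩ := exists_exit hy
    have h1 := hk (Function.update y (max k l) true) (fun i hi => by
      rw [Function.update_of_ne (by omega), hyx i hi]) (max k l) (by simp)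
    have h2 : restrict (Function.update y (max k l) true) (max k l) = restrict y (max k l) :=
      restrict_eq_iff.2 fun i hi => Function.update_of_ne hi.ne _ _
    rw [h2] at h1
    exact hl (take_restrict y (le_max_right k l) ▸ hAt _ l h1)
  · refine Subset.antisymm (fun x hx => ⟨hKP hx, mem_closure_cantor.2 fun j => ?_⟩) ?_
    · obtain ⟨w, hw⟩ := hlim (restrict x j)
      have hex : ∃ c, ∃ ρ : List Bool, encode ρ = c ∧ Exit A ρ ∧ ρ.take j = restrict x j ∧
          ∀ s, c ≤ s → g (restrict x j, s) := by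
        obtain ⟨y, hy, hyx⟩ := hdense x (max j w)
        obtain ⟨l, hl⟩ := exists_exit hy
        have hjl : max j w < l := by
          by_contra hc
          refine hl.1 ?_
          rw [restrict_eq_iff.2 fun i hi => hyx i (by omega)]
          exact hKP hx l
        refine ⟨_, restrict y l, rfl, hl, ?_, fun s hs => (hw s ?_).2 (hx j)⟩
        · rw [take_restrict _ (by omega), restrict_eq_iff.2 fun i hi => hyx i (by omega)]
        · have := Encodable.length_le_encode (restrict y l)
          rw [length_restrict] at this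
          omega
      obtain ⟨ρ, h1, h2, h3, h4⟩ := Nat.find_spec hex
      have hj : j ≤ ρ.length := by
        have := congrArg List.length h3
        simp at this
        omega
      have hρ : Exit A (restrict (ext ρ) ρ.length) := by rwa [restrict_ext]
      refine ⟨ext ρ, ⟨⟨fun i hi => ?_, fun l hl => ?_⟩, fun h => hρ.1 (h _)⟩,
        restrict_eq_iff.1 (by rw [restrict_ext_le _ hj, h3])⟩
      · have hi' : i < ρ.length := by
          by_contra hc
          simp [ext, List.getD_eq_getElem?_getD, List.getElem?_eq_none (not_lt.1 hc)] at hi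
        rw [restrict_ext_le _ hi'.le]
        exact h2.2 i hi'
      · obtain rfl := hl.unique hρ
        rw [restrict_ext]
        refine ⟨j, by omega, by rw [h1, h3]; exact h4, fun c hc e1 e2 e3 => ?_⟩
        rw [h1] at hc
        have h5 := Nat.find_min hex hc
        rw [h3] at e3 ⊢
        by_contra hn
        refine h5 ⟨_, e1, e2, e3, fun s hs => ?_⟩
        by_contra hg'
        exact hn ⟨s, by
          by_contra hs'
          exact hg' (h4 s (by omega)), hs, hg'⟩
    · rintro x ⟨hxP, hx⟩ n
      by_contra hn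
      have hb : ∀ j, ∃ b, ∀ ρ, Exit A ρ → ρ.take j = restrict x j → G ρ j → ρ.length ≤ b := by
        intro j
        by_cases h : ∃ ρ, Exit A ρ ∧ ρ.take j = restrict x j ∧ G ρ j
        · obtain ⟨ρ₀, e1, e2, e3⟩ := h
          refine ⟨encode ρ₀, fun ρ f1 f2 f3 => (Encodable.length_le_encode ρ).trans ?_⟩
          by_contra hc
          obtain ⟨s, -, hs1, hs2⟩ := f3.2 (encode ρ₀) (by omega) (by simp) (by simpa using e1)
            (by simp [e2, f2])
          exact hs2 (by simpa [e2, f2] using e3.1 s hs1)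
        · exact ⟨0, fun ρ f1 f2 f3 => absurd ⟨ρ, f1, f2, f3⟩ h⟩
      choose b hb using hb
      obtain ⟨y, ⟨⟨-, hy1⟩, hy2⟩, hyx⟩ := mem_closure_cantor.1 hx (n + (Finset.range n).sup b)
      obtain ⟨l, hl⟩ := exists_exit hy2
      have hnl : n + (Finset.range n).sup b < l := by
        by_contra hc
        refine hl.1 ?_
        rw [restrict_eq_iff.2 fun i hi => hyx i (by omega)]
        exact hxP l
      obtain ⟨j, hj, hG⟩ := hy1 l hl
      have hTj : T (restrict y j) := by
        obtain ⟨w, hw⟩ := hlim (restrict y j)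
        refine (hw _ (le_max_left w (encode (restrict y l)))).1 ?_
        rw [← take_restrict y (show j ≤ l by omega)]
        exact hG.1 _ (le_max_right _ _)
      have hjn : j < n := by
        by_contra hc
        refine hn ?_
        rw [← restrict_eq_iff.2 fun i hi => hyx i (show i < n + _ by omega),
          ← take_restrict y (not_lt.1 hc)]
        exact hTt _ _ hTj
      have h1 := hb j _ hl (by
        rw [take_restrict _ (by omega), restrict_eq_iff.2 fun i hi => hyx i (by omega)]) hG
      have h2 : b j ≤ (Finset.range n).sup b := Finset.le_sup (Finset.mem_range.2 hjn)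
      rw [length_restrict] at h1
      omega

/-- Index types for the parameters. -/
def Par : ℕ → Type
  | 0 => Unit
  | k + 1 => Option (Par k)

instance finite_par : ∀ k, Finite (Par k)
  | 0 => inferInstanceAs (Finite Unit)
  | k + 1 => haveI := finite_par k; inferInstanceAs (Finite (Option (Par k)))

/-- Closed sets obtained from classes by iterating `K ↦ P ∩ closure (K \ P)`. -/
def Fam : (k : ℕ) → (Par k → EPi) → Set (ℕ → Bool)
  | 0, u => (u ()).1
  | k + 1, u => (u none).1 ∩ closure (Fam k (fun a => u (some a)) \ (u none).1)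

theorem exists_fam (m : ℕ) : ∀ {K P : Set (ℕ → Bool)}, Cl m K → IsPi01 P → interior P = ∅ →
    K ⊆ P → ∃ u, Fam m u = K := by
  induction m with
  | zero => exact fun hK _ _ _ => ⟨fun _ => ⟨_, isPi01_iff.2 hK⟩, rfl⟩
  | succ m ih =>
    intro K P hK hP hi hKP
    obtain ⟨K', P', h1, h2, h3, h4, rfl⟩ := exists_lower hK hP hi hKP
    obtain ⟨u, rfl⟩ := ih h1 h2 h3 h4
    exact ⟨fun a => Option.elim a ⟨P, hP⟩ u, rfl⟩

end Pool.Agent.Lib.MP_6cbb02_lc
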