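import Pool.Agent.Lib.MP_6cbb02_lc.CB

set_option autoImplicit false

namespace Pool.Agent.Lib.MP_6cbb02_lc

open Set Topology

/-- The bits recorded at the events before time `t`. -/
def code (y : ℕ → Bool) : ℕ → List Bool
  | 0 => []
  | t + 1 => if y (2 * t) = true then code y t ++ [y (2 * t + 1)] else code y t

lemma code_congr {y z : ℕ → Bool} {t : ℕ} (h : ∀ i < 2 * t, z i = y i) : code z t = code y t := by
  induction t with
  | zero => rfl
  | succ t ih =>
    simp only [code]
    rw [ih fun i hi => h i (by omega), h _ (by omega), h _ (by omega)]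

@[fun_prop] lemma Cp.code_ext {α : Type} [Primcodable α] {f : α → List Bool} {g : α → ℕ}
    (hf : Cp f) (hg : Cp g) : Cp fun a => code (ext (f a)) (g a) := by
  have h1 : Computable fun a => (Nat.rec [] (fun t l => cond ((f a).getD (2 * t) false)
      (l ++ [(f a).getD (2 * t + 1) false]) l) (g a) : List Bool) :=
    Computable.nat_rec (h := fun (a : α) (y : ℕ × List Bool) => cond ((f a).getD (2 * y.1) false)
      (y.2 ++ [(f a).getD (2 * y.1 + 1) false]) y.2) (cp_iff.1 hg) (Computable.const _)
      (Computable.cond (α := α × ℕ × List Bool) (cp_iff.1 (by fun_prop)) (cp_iff.1 (by fun_prop))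
        (cp_iff.1 (by fun_prop)))
  refine cp_iff.2 (h1.of_eq fun a => ?_)
  induction g a with
  | zero => rfl
  | succ t ih => simp only [ih]; simp only [code, ext, Bool.cond_eq_ite]

lemma code_prefix (y : ℕ → Bool) {t u : ℕ} (h : t ≤ u) : code y t <+: code y u := by
  induction h with
  | refl => exact List.prefix_rfl
  | step _ ih =>
    refine ih.trans ?_
    simp only [code]
    split_ifs
    · exact List.prefix_append _ _
    · exact List.prefix_rfl

lemma code_const {y : ℕ → Bool} {t u : ℕ} (h : t ≤ u) (h' : ∀ v, t ≤ v → v < u → y (2 * v) ≠ true) :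
    code y u = code y t := by
  induction h with
  | refl => rfl
  | step h ih => rw [code, if_neg (h' _ h (by omega)), ih fun v h1 h2 => h' v h1 (by omega)]

section

variable (g : List Bool × ℕ → Prop)

/-- The condition at time `t` and stage `s`. -/
def Cond (y : ℕ → Bool) (t s : ℕ) : Prop :=
  (y (2 * t) = false → y (2 * t + 1) = false) ∧ (y (2 * t) = true →
    (t ≤ s → g (code y (t + 1), s)) ∧
      (t = 0 ∨ y (2 * (t - 1)) = true ∨ ¬ g (code y (t + 1), t - 1)))

lemma cond_congr {y z : ℕ → Bool} {t s : ℕ} (h : ∀ i < 2 * (t + 1), z i = y i) :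
    Cond g z t s ↔ Cond g y t s := by
  unfold Cond
  rw [code_congr h, h _ (by omega), h _ (by omega), h (2 * (t - 1)) (by omega)]

/-- Sequences recording a path together with settling times. -/
def lift : Set (ℕ → Bool) := {y | ∀ t s, Cond g y t s}

lemma lift_eq : lift g = paths fun σ => ∀ t < σ.length, 2 * (t + 1) ≤ σ.length →
    ∀ s < σ.length, Cond g (ext σ) t s := by
  ext y
  refine ⟨fun hy n t _ ht s _ => ?_, fun hy t s => ?_⟩
  · rw [length_restrict] at ht
    exact (cond_congr g fun i hi => ext_restrict (by omega)).2 (hy t s)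
  · exact (cond_congr g fun i hi => ext_restrict (by omega)).1
      (hy (2 * (t + 1) + s) t (by simp; omega) (by simp) s (by simp))

lemma isClosed_lift : IsClosed (lift g) := lift_eq g ▸ isClosed_paths _

/-- The approximation has settled on the next initial segment. -/
def Ev (x : ℕ → Bool) (k t : ℕ) : Prop := ∀ s, t ≤ s → g (restrict x (k + 1), s)

open Classical in
/-- The number of events before time `t`. -/
noncomputable def cnt (x : ℕ → Bool) : ℕ → ℕ
  | 0 => 0
  | t + 1 => if Ev g x (cnt x t) t then cnt x t + 1 else cnt x t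

open Classical in
/-- The sequence recording `x` and the settling times. -/
noncomputable def emb (x : ℕ → Bool) (n : ℕ) : Bool :=
  if Ev g x (cnt g x (n / 2)) (n / 2) then (if n % 2 = 0 then true else x (cnt g x (n / 2)))
  else false

lemma emb_even {x : ℕ → Bool} {t : ℕ} : emb g x (2 * t) = true ↔ Ev g x (cnt g x t) t := by
  simp [emb]

lemma emb_odd_pos {x : ℕ → Bool} {t : ℕ} (h : Ev g x (cnt g x t) t) :
    emb g x (2 * t + 1) = x (cnt g x t) := by
  have : (2 * t + 1) / 2 = t := by omega
  simp [emb, this, h]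

lemma emb_odd_neg {x : ℕ → Bool} {t : ℕ} (h : ¬ Ev g x (cnt g x t) t) :
    emb g x (2 * t + 1) = false := by
  have : (2 * t + 1) / 2 = t := by omega
  simp [emb, this, h]

lemma code_emb (x : ℕ → Bool) (t : ℕ) : code (emb g x) t = restrict x (cnt g x t) := by
  induction t with
  | zero => rfl
  | succ t ih =>
    by_cases h : Ev g x (cnt g x t) t
    · rw [code, if_pos ((emb_even g).2 h), cnt, if_pos h, restrict_succ, ih, emb_odd_pos g h]
    · rw [code, if_neg (mt (emb_even g).1 h), cnt, if_neg h, ih]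

lemma emb_mem (x : ℕ → Bool) : emb g x ∈ lift g := by
  intro t s
  refine ⟨fun h => emb_odd_neg g fun h' => by simp [(emb_even g).2 h'] at h, fun h => ?_⟩
  have h' := (emb_even g).1 h
  rw [code_emb, cnt, if_pos h']
  refine ⟨h' s, ?_⟩
  rcases t with _ | t
  · exact Or.inl rfl
  · by_cases h2 : Ev g x (cnt g x t) t
    · exact Or.inr (Or.inl ((emb_even g).2 h2))
    · refine Or.inr (Or.inr fun h3 => h2 fun s hs => ?_)
      rw [cnt, if_neg h2] at h' h3
      rcases hs.eq_or_lt with rfl | hs
      · exact h3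
      · exact h' s hs

lemma cnt_le (x : ℕ → Bool) (t : ℕ) : cnt g x t ≤ t := by
  induction t with
  | zero => rfl
  | succ t ih => rw [cnt]; split_ifs <;> omega

lemma cnt_mono (x : ℕ → Bool) : Monotone (cnt g x) :=
  monotone_nat_of_le_succ fun t => by rw [cnt]; split_ifs <;> omega

lemma ev_congr {x y : ℕ → Bool} {k t : ℕ} (h : ∀ i < k + 1, y i = x i) :
    Ev g y k t ↔ Ev g x k t := by
  unfold Ev
  rw [restrict_eq_iff.2 h]

lemma cnt_congr {x y : ℕ → Bool} {t : ℕ} (h : ∀ i < t, y i = x i) : cnt g y t = cnt g x t := by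
  induction t with
  | zero => rfl
  | succ t ih =>
    have := cnt_le g x t
    have e1 := ih fun i hi => h i (by omega)
    have e2 : Ev g y (cnt g x t) t = Ev g x (cnt g x t) t :=
      propext (ev_congr g fun i hi => h i (by omega))
    rw [cnt, cnt, e1, e2]

lemma continuous_emb : Continuous (emb g) := by
  refine continuous_cantor fun x n => ⟨n / 2 + 1, fun y hy => ?_⟩
  have := cnt_le g x (n / 2)
  have e1 := cnt_congr g (t := n / 2) fun i hi => hy i (by omega)
  have e2 : Ev g y (cnt g x (n / 2)) (n / 2) = Ev g x (cnt g x (n / 2)) (n / 2) :=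
    propext (ev_congr g fun i hi => hy i (by omega))
  rw [emb, emb, e1, e2, hy _ (Nat.lt_succ_of_le this)]

variable {g} {T : List Bool → Prop} (hlim : ∀ σ, ∃ s₀, ∀ s, s₀ ≤ s → (g (σ, s) ↔ T σ))
include hlim

lemma cnt_unbounded {x : ℕ → Bool} (hx : x ∈ paths T) (n : ℕ) : ∃ t, n ≤ cnt g x t := by
  induction n with
  | zero => exact ⟨0, le_rfl⟩
  | succ n ih =>
    obtain ⟨t, ht⟩ := ih
    obtain ⟨w, hw⟩ := hlim (restrict x (n + 1))
    have h1 := cnt_mono g x (le_max_left t w)
    by_cases h : n + 1 ≤ cnt g x (max t w)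
    · exact ⟨_, h⟩
    · have h2 : cnt g x (max t w) = n := by omega
      refine ⟨max t w + 1, ?_⟩
      have h3 : Ev g x n (max t w) := fun s hs => (hw s (by omega)).2 (hx _)
      rw [cnt, h2, if_pos h3]

lemma injOn_emb : InjOn (emb g) (paths T) := by
  intro x hx y _ h
  funext n
  obtain ⟨t, ht⟩ := cnt_unbounded hlim hx (n + 1)
  have h1 := code_emb g x t
  rw [h, code_emb] at h1
  have h2 : cnt g y t = cnt g x t := by simpa using congrArg List.length h1
  rw [h2] at h1
  exact (restrict_eq_iff.1 h1 n (by omega)).symm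

omit hlim in
lemma events_unbounded {y : ℕ → Bool} (hy : y ∈ derivedSet (lift g)) (t₀ : ℕ) :
    ∃ t, t₀ ≤ t ∧ y (2 * t) = true := by
  classical
  have hy' : y ∈ lift g := (isClosed_iff_derivedSet_subset _).1 (isClosed_lift g) hy
  by_contra hc
  push Not at hc
  have hb : ∀ b, ∃ L, ∀ u, ¬ g (code y t₀ ++ [b], u) →
      (∀ s, u + 1 ≤ s → g (code y t₀ ++ [b], s)) → u ≤ L := by
    intro b
    by_cases h : ∃ L, ∀ s, L + 1 ≤ s → g (code y t₀ ++ [b], s)
    · obtain ⟨L, hL⟩ := h
      exact ⟨L, fun u h1 _ => not_lt.1 fun h => h1 (hL u h)⟩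
    · exact ⟨0, fun u _ h2 => absurd ⟨u, h2⟩ h⟩
  choose L hL using hb
  obtain ⟨z, hz, hne, hzy⟩ := mem_derivedSet_cantor.1 hy (2 * (t₀ + L true + L false + 2))
  have hex : ∃ u, t₀ ≤ u ∧ z (2 * u) = true := by
    by_contra hc'
    push Not at hc'
    refine hne (funext fun n => ?_)
    by_cases hn : n < 2 * t₀
    · exact hzy n (by omega)
    · have e1 : z (2 * (n / 2)) = false := by simpa using hc' (n / 2) (by omega)
      have e2 : y (2 * (n / 2)) = false := by simpa using hc (n / 2) (by omega)
      rcases Nat.even_or_odd' n with ⟨k, rfl | rfl⟩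
      · rw [show 2 * k / 2 = k by omega] at e1 e2
        rw [e1, e2]
      · rw [show (2 * k + 1) / 2 = k by omega] at e1 e2
        rw [(hz k 0).1 e1, (hy' k 0).1 e2]
  obtain ⟨h1, h2⟩ := Nat.find_spec hex
  have hmin : ∀ v, t₀ ≤ v → v < Nat.find hex → z (2 * v) ≠ true := fun v e1 e2 e3 =>
    Nat.find_min hex e2 ⟨e1, e3⟩
  set u := Nat.find hex
  have h3 : t₀ + L true + L false + 2 ≤ u := by
    by_contra h
    exact hc u h1 ((hzy (2 * u) (by omega)).symm.trans h2)
  have h4 : code z (u + 1) = code y t₀ ++ [z (2 * u + 1)] := by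
    rw [code, if_pos h2, code_const h1 hmin, code_congr fun i hi => hzy i (by omega)]
  have h5 := hL (z (2 * u + 1)) (u - 1) (by
    rcases ((hz u 0).2 h2).2 with h | h | h
    · omega
    · exact absurd h (hmin _ (by omega) (by omega))
    · exact h4 ▸ h) fun s hs => h4 ▸ ((hz u s).2 h2).1 (by omega)
  cases hb : z (2 * u + 1) <;> rw [hb] at h5 <;> omega

lemma derivedSet_lift_subset (hT : ∀ σ i, T σ → T (σ.take i)) :
    derivedSet (lift g) ⊆ emb g '' paths T := by
  classical
  intro y hy
  have hy' : y ∈ lift g := (isClosed_iff_derivedSet_subset _).1 (isClosed_lift g) hy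
  have hev := events_unbounded hy
  have hlen : ∀ n, ∃ t, n ≤ (code y t).length := by
    intro n
    induction n with
    | zero => exact ⟨0, by simp⟩
    | succ n ih =>
      obtain ⟨t, ht⟩ := ih
      obtain ⟨u, h1, h2⟩ := hev t
      have := (code_prefix y h1).length_le
      exact ⟨u + 1, by rw [code, if_pos h2]; simp; omega⟩
  choose τ hτ using hlen
  let x : ℕ → Bool := fun i => ext (code y (τ (i + 1))) i
  have hpre : ∀ {t u i}, t ≤ u → i < (code y t).length → ext (code y u) i = ext (code y t) i := by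
    intro t u i h1 h2
    obtain ⟨l, hl⟩ := code_prefix y h1
    simp [ext, ← hl, List.getD_eq_getElem?_getD, List.getElem?_append_left h2]
  have hx : ∀ t, restrict x (code y t).length = code y t := by
    intro t
    conv_rhs => rw [← restrict_ext (code y t)]
    refine restrict_eq_iff.2 fun i hi => ?_
    exact (hpre (le_max_left _ t) (hτ (i + 1))).symm.trans (hpre (le_max_right _ _) hi)
  have hx' : ∀ {t}, y (2 * t) = true → code y (t + 1) = restrict x ((code y t).length + 1) := by
    intro t h
    rw [← hx (t + 1), code, if_pos h]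
    simp
  have h1 : ∀ t, y (2 * t) = true ↔ Ev g x (code y t).length t := by
    intro t
    refine ⟨fun h s hs => hx' h ▸ ((hy' t s).2 h).1 hs, fun h => ?_⟩
    obtain ⟨e1, e2⟩ := Nat.find_spec (hev t)
    have hmin : ∀ v, t ≤ v → v < Nat.find (hev t) → y (2 * v) ≠ true := fun v f1 f2 f3 =>
      Nat.find_min (hev t) f2 ⟨f1, f3⟩
    set u := Nat.find (hev t)
    rcases e1.eq_or_lt with e | e
    · exact e ▸ e2
    · rcases ((hy' u 0).2 e2).2 with h' | h' | h'
      · omega
      · exact absurd h' (hmin _ (by omega) (by omega))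
      · rw [hx' e2, code_const e1 hmin] at h'
        exact absurd (h _ (by omega)) h'
  have h2 : ∀ t, cnt g x t = (code y t).length := by
    intro t
    induction t with
    | zero => rfl
    | succ t ih =>
      rw [cnt, code, ih, ← h1]
      split_ifs <;> simp
  refine ⟨x, fun n => ?_, funext fun n => ?_⟩
  · obtain ⟨u, e1, e2⟩ := hev (τ n)
    obtain ⟨w, hw⟩ := hlim (code y (u + 1))
    have e3 := (hw _ (le_max_left w u)).1 (((hy' u _).2 e2).1 (le_max_right _ _))
    have e4 := (hτ n).trans (code_prefix y (e1.trans u.le_succ)).length_le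
    rw [← take_restrict x e4, hx]
    exact hT _ _ e3
  · rcases Nat.even_or_odd' n with ⟨t, rfl | rfl⟩
    · rw [Bool.eq_iff_iff, emb_even, h2, h1]
    · by_cases h : y (2 * t) = true
      · rw [emb_odd_pos g (h2 t ▸ (h1 t).1 h), h2]
        have := hx' h
        rw [code, if_pos h, restrict_succ, hx] at this
        simpa using this.symm
      · rw [emb_odd_neg g (h2 t ▸ mt (h1 t).2 h), (hy' t 0).1 (by simpa using h)]

end

/-- Uniform version of `Cl`. -/
def ClU {β : Type} [Primcodable β] (m : ℕ) (K : β → Set (ℕ → Bool)) : Prop :=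
  ∃ A : β → List Bool → Prop, (Lim m fun z : β × List Bool => A z.1 z.2) ∧ ∀ b, K b = paths (A b)

lemma ClU.lower {β : Type} [Primcodable β] {m : ℕ} {K : β → Set (ℕ → Bool)} (h : ClU (m + 1) K) :
    ∃ K' : β → Set (ℕ → Bool), ClU m K' ∧ ∀ b a, (D a (K' b) = ∅ → D a (K b) = ∅) ∧
      (D a (K b) = ∅ → D (1 + a) (K' b) = ∅) := by
  obtain ⟨A, hA, hK⟩ := h
  let T : β → List Bool → Prop := fun b σ => ∀ i < σ.length + 1, A b (σ.take i)
  have hT : Lim (m + 1) fun z : β × List Bool => T z.1 z.2 :=
    Lim.ball (by fun_prop) (hA.comp (f := fun z : (β × List Bool) × ℕ => (z.1.1, z.1.2.take z.2))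
      (by fun_prop))
  have hKT : ∀ b, K b = paths (T b) := by
    intro b
    rw [hK]
    ext x
    refine ⟨fun hx n i hi => ?_, fun hx n => ?_⟩
    · rw [take_restrict _ (by simpa [Nat.lt_succ_iff] using hi)]
      exact hx i
    · simpa [take_restrict x le_rfl] using hx n n (by simp)
  have hTt : ∀ b σ i, T b σ → T b (σ.take i) := by
    intro b σ i hσ j _
    rw [List.take_take]
    by_cases hj : min j i < σ.length + 1
    · exact hσ _ hj
    · rw [List.take_of_length_le (by omega)]
      simpa using hσ σ.length (by omega)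
  obtain ⟨g, hg, hlim⟩ := lim_succ.1 hT
  refine ⟨fun b => lift fun z => g ((b, z.1), z.2), ⟨_, ?_, fun b => lift_eq _⟩, fun b a => ?_⟩
  · unfold Cond ext
    refine Lim.ball (by fun_prop) ((Lim.le (by fun_prop) (by fun_prop)).imp (Lim.ball (by fun_prop)
      (((Lim.eq (by fun_prop) (by fun_prop)).imp (Lim.eq (by fun_prop) (by fun_prop))).and
        ((Lim.eq (by fun_prop) (by fun_prop)).imp
          (((Lim.le (by fun_prop) (by fun_prop)).imp (hg.comp ?_)).and
            ((Lim.eq (by fun_prop) (by fun_prop)).or ((Lim.eq (by fun_prop) (by fun_prop)).or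
              (hg.comp ?_).not)))))))
    · exact (Cp.pair (by fun_prop) (Cp.code_ext (by fun_prop) (by fun_prop))).pair (by fun_prop)
    · exact (Cp.pair (by fun_prop) (Cp.code_ext (by fun_prop) (by fun_prop))).pair (by fun_prop)
  · have hl : ∀ σ, ∃ s₀, ∀ s, s₀ ≤ s → ((fun z : List Bool × ℕ => g ((b, z.1), z.2)) (σ, s) ↔
      T b σ) := fun σ => hlim (b, σ)
    rw [hKT]
    refine ⟨fun h => ?_, fun h => ?_⟩
    · have := image_D_subset (continuous_emb _) (isClosed_paths _) (isClosed_lift _)
        (injOn_emb (g := fun z => g ((b, z.1), z.2)) hl) (fun x _ => emb_mem _ x) a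
      rw [h] at this
      exact mapsTo_empty_iff.1 this
    · rw [D_add (isClosed_lift _), ← subset_empty_iff]
      have e : D 1 (lift fun z => g ((b, z.1), z.2)) = derivedSet (lift fun z => g ((b, z.1), z.2)) := by
        simpa [D_zero] using D_succ (a := 0) (isClosed_lift fun z => g ((b, z.1), z.2))
      rw [e]
      refine (D_mono (derivedSet_lift_subset (g := fun z => g ((b, z.1), z.2)) hl (hTt b))).trans
        ((D_image_subset (continuous_emb _) (isClosed_paths _)
          (injOn_emb (g := fun z => g ((b, z.1), z.2)) hl) a).trans ?_)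
      simp [h]

lemma ClU.lower_zero {β : Type} [Primcodable β] (m : ℕ) : ∀ {K : β → Set (ℕ → Bool)}, ClU m K →
    ∃ K' : β → Set (ℕ → Bool), ClU 0 K' ∧ ∀ b a, (D a (K' b) = ∅ → D a (K b) = ∅) ∧
      (D a (K b) = ∅ → D (m + a) (K' b) = ∅) := by
  induction m with
  | zero => exact fun {K} h => ⟨K, h, fun b a => ⟨id, by simp⟩⟩
  | succ m ih =>
    intro K h
    obtain ⟨K₁, h1, h2⟩ := h.lower
    obtain ⟨K₂, h3, h4⟩ := ih h1
    refine ⟨K₂, h3, fun b a => ⟨fun h => (h2 b a).1 ((h4 b a).1 h), fun h => ?_⟩⟩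
    rw [Nat.cast_succ, add_assoc]
    exact (h4 b _).2 ((h2 b a).2 h)

end Pool.Agent.Lib.MP_6cbb02_lc
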