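import Pool.Agent.Lib.MP_6cbb02_lc.CB

set_option autoImplicit false

namespace Pool.Agent.Lib.MP_6cbb02_lc

open Set Topology

/-- The intersection of two classes. -/
def EPi.inter (P Q : EPi) : EPi :=
  ⟨P.1 ∩ Q.1, isPi01_iff.2 ((isPi01_iff.1 P.2).inter (isPi01_iff.1 Q.2))⟩

/-- The union of two classes. -/
def EPi.union (P Q : EPi) : EPi :=
  ⟨P.1 ∪ Q.1, isPi01_iff.2 ((isPi01_iff.1 P.2).union (isPi01_iff.1 Q.2))⟩

/-- A clopen set as a class. -/
def EPi.ofClopen {C : Set (ℕ → Bool)} (h : IsClopen C) : EPi := ⟨C, isPi01_of_isClopen h⟩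

lemma disjoint_iff_le (P Q : EPi) :
    Disjoint P.1 Q.1 ↔ ∀ R : EPi, R ≤ P → R ≤ Q → ∀ S : EPi, R ≤ S :=
  ⟨fun h _ h1 h2 _ _ hx => absurd (h2 hx) (disjoint_left.1 h (h1 hx)), fun h =>
    disjoint_iff_inter_eq_empty.2 (subset_empty_iff.1
      (h (P.inter Q) inter_subset_left inter_subset_right (.ofClopen isClopen_empty)))⟩

lemma cover_iff_le (P Q : EPi) :
    P.1 ∪ Q.1 = univ ↔ ∀ R : EPi, P ≤ R → Q ≤ R → ∀ S : EPi, S ≤ R :=
  ⟨fun h _ h1 h2 _ x _ => union_subset h1 h2 (h ▸ mem_univ x), fun h =>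
    univ_subset_iff.1 (h (P.union Q) subset_union_left subset_union_right (.ofClopen isClopen_univ))⟩

lemma isClopen_iff_le (C : EPi) :
    IsClopen C.1 ↔ ∃ C' : EPi, Disjoint C.1 C'.1 ∧ C.1 ∪ C'.1 = univ := by
  refine ⟨fun h => ⟨.ofClopen h.compl, disjoint_compl_right, union_compl_self _⟩, ?_⟩
  rintro ⟨C', h1, h2⟩
  refine ⟨C.2.isClosed, ?_⟩
  have : C.1 = C'.1ᶜ := (IsCompl.of_eq h1.eq_bot h2).eq_compl
  rw [this]
  exact C'.2.isClosed.isOpen_compl

section

variable (Φ : EPi ≃o EPi)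

lemma disjoint_map (P Q : EPi) : Disjoint (Φ P).1 (Φ Q).1 ↔ Disjoint P.1 Q.1 := by
  simp only [disjoint_iff_le, Φ.surjective.forall (p := fun R => R ≤ Φ P → _),
    Φ.surjective.forall (p := fun S => Φ _ ≤ S), Φ.le_iff_le]

lemma cover_map (P Q : EPi) : (Φ P).1 ∪ (Φ Q).1 = univ ↔ P.1 ∪ Q.1 = univ := by
  simp only [cover_iff_le, Φ.surjective.forall (p := fun R => Φ P ≤ R → _),
    Φ.surjective.forall (p := fun S => S ≤ Φ _), Φ.le_iff_le]

lemma isClopen_map (C : EPi) : IsClopen (Φ C).1 ↔ IsClopen C.1 := by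
  simp only [isClopen_iff_le, Φ.surjective.exists (p := fun R => Disjoint (Φ C).1 R.1 ∧ _),
    disjoint_map, cover_map]

lemma exists_point (x : ℕ → Bool) : ∃ y, ∀ C : EPi, IsClopen C.1 → (x ∈ C.1 ↔ y ∈ (Φ C).1) := by
  obtain ⟨y, hy⟩ := IsCompact.nonempty_iInter_of_sequence_nonempty_isCompact_isClosed
    (fun n => (Φ (.ofClopen (isClopen_agree x n))).1)
    (fun n => Φ.monotone (a := .ofClopen (isClopen_agree x (n + 1)))
      (b := .ofClopen (isClopen_agree x n)) fun z hz i hi => hz i (by omega))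
    (fun n => by
      by_contra hc
      rw [not_nonempty_iff_eq_empty] at hc
      have := (disjoint_map Φ (.ofClopen (isClopen_agree x n)) (.ofClopen (isClopen_agree x n))).1
        (by rw [hc]; simp)
      have hx : x ∈ (EPi.ofClopen (isClopen_agree x n)).1 := fun _ _ => rfl
      exact disjoint_left.1 this hx hx)
    (Φ _).2.isClosed.isCompact fun n => (Φ _).2.isClosed
  rw [mem_iInter] at hy
  have key : ∀ C : EPi, IsClopen C.1 → x ∈ C.1 → y ∈ (Φ C).1 := by
    intro C hC hx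
    obtain ⟨n, hn⟩ := mem_nhds_cantor.1 (hC.2.mem_nhds hx)
    exact Φ.monotone (a := .ofClopen (isClopen_agree x n)) (b := C) hn (hy n)
  refine ⟨y, fun C hC => ⟨key C hC, fun h => ?_⟩⟩
  by_contra hx
  exact disjoint_left.1 ((disjoint_map Φ C (.ofClopen hC.compl)).2 disjoint_compl_right) h
    (key (.ofClopen hC.compl) hC.compl hx)

lemma D_map_empty {P : EPi} {a : Ordinal.{0}} (h : D a (Φ P).1 = ∅) : D a P.1 = ∅ := by
  choose f hf using exists_point Φ
  have hpre : ∀ {C : Set (ℕ → Bool)} (hC : IsClopen C),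
      f ⁻¹' C = (Φ.symm (.ofClopen hC)).1 ∧ IsClopen (Φ.symm (.ofClopen hC)).1 := by
    intro C hC
    have h1 : IsClopen (Φ.symm (.ofClopen hC)).1 := (isClopen_map Φ.symm _).2 hC
    refine ⟨?_, h1⟩
    ext x
    rw [hf x _ h1, Φ.apply_symm_apply]
    rfl
  have hc : Continuous f := by
    refine continuous_cantor fun x n => ?_
    have h1 := hpre (isClopen_agree (f x) (n + 1))
    have h2 : x ∈ f ⁻¹' {y | ∀ i < n + 1, y i = f x i} := fun _ _ => rfl
    obtain ⟨k, hk⟩ := mem_nhds_cantor.1 ((h1.1 ▸ h1.2).2.mem_nhds h2)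
    exact ⟨k, fun y hy => hk y hy n (by omega)⟩
  have hi : Function.Injective f := by
    intro x y hxy
    funext n
    have h1 := hf x (.ofClopen (isClopen_agree x (n + 1))) (isClopen_agree _ _)
    have h2 := hf y (.ofClopen (isClopen_agree x (n + 1))) (isClopen_agree _ _)
    exact (h2.2 (hxy ▸ h1.1 fun _ _ => rfl) n (by omega)).symm
  have hm : MapsTo f P.1 (Φ P).1 := by
    intro x hx
    by_contra hn
    obtain ⟨k, hk⟩ := mem_nhds_cantor.1 ((Φ P).2.isClosed.isOpen_compl.mem_nhds hn)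
    have h1 := hpre (isClopen_agree (f x) k)
    have h2 : Disjoint (Φ (Φ.symm (.ofClopen (isClopen_agree (f x) k)))).1 (Φ P).1 := by
      rw [Φ.apply_symm_apply]
      exact disjoint_left.2 hk
    refine disjoint_left.1 ((disjoint_map Φ _ _).1 h2) ?_ hx
    rw [← h1.1]
    exact fun _ _ => rfl
  have := image_D_subset hc P.2.isClosed (Φ P).2.isClosed hi.injOn hm a
  rw [h] at this
  exact mapsTo_empty_iff.1 this

lemma D_map_empty_iff {P : EPi} {a : Ordinal.{0}} : D a (Φ P).1 = ∅ ↔ D a P.1 = ∅ :=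
  ⟨D_map_empty Φ, fun h => D_map_empty Φ.symm (by simpa using h)⟩

end

theorem isInvariant_rankFamily (α : Ordinal.{0}) : IsInvariant (rankFamily α) := by
  intro Φ
  ext P
  obtain ⟨Q, rfl⟩ := Φ.surjective P
  rw [Φ.injective.mem_set_image]
  simp only [mem_rankFamily, ne_eq, D_map_empty_iff]

end Pool.Agent.Lib.MP_6cbb02_lc
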