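import Pool.Agent.Lib.MP_6cbb02_lc.Ord

set_option autoImplicit false

namespace Pool.Agent.Lib.MP_6cbb02_lc

open Set Topology Ordinal

/-- Two different extensions of the same length. -/
def Split (σ τ₁ τ₂ : List Bool) : Prop :=
  (τ₁.length = τ₂.length ∧ ¬ τ₁ = τ₂) ∧ τ₁.take σ.length = σ ∧ τ₂.take σ.length = σ

lemma Split.lt {σ τ₁ τ₂ : List Bool} (h : Split σ τ₁ τ₂) : σ.length < τ₁.length := by
  by_contra hc
  refine h.1.2 ?_
  rw [← List.take_of_length_le (not_lt.1 hc), h.2.1, ← h.2.2,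
    List.take_of_length_le (h.1.1 ▸ not_lt.1 hc)]

/-- One step in the search for a perfect subtree. -/
def Step (A : List Bool → Prop) (L' L : List (List Bool)) : Prop :=
  (¬ L = [] ∧ ∀ τ ∈ L', A τ) ∧ ∀ σ ∈ L, ∃ τ₁ ∈ L', ∃ τ₂ ∈ L', Split σ τ₁ τ₂

lemma restrict_of_take {x : ℕ → Bool} {σ τ : List Bool} (h : restrict x τ.length = τ)
    (h' : τ.take σ.length = σ) : restrict x σ.length = σ := by
  have : σ.length ≤ τ.length := by
    have := congrArg List.length h'
    simp at this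
    omega
  rw [← take_restrict x this, h, h']

lemma wf_step {A : List Bool → Prop} (hA : ∀ σ i, A σ → A (σ.take i)) {a : Ordinal.{0}}
    (h : D a (paths A) = ∅) : WellFounded (Step A) := by
  refine wellFounded_iff_isEmpty_descending_chain.2 ⟨fun ⟨L, hL⟩ => ?_⟩
  let Z : Set (ℕ → Bool) := {x | ∀ n, ∃ k, ∃ σ ∈ L (k + 1), n ≤ σ.length ∧ restrict x σ.length = σ}
  have hext : ∀ k, ∀ σ ∈ L k, ∃ x ∈ Z, restrict x σ.length = σ := by
    intro k σ hσ
    choose! nx h1 τ₂ h2 h3 using fun k => (hL k).2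
    let s : ℕ → List Bool := fun j => Nat.rec σ (fun j ρ => nx (k + j) ρ) j
    have hs : ∀ j, s j ∈ L (k + j) ∧ j ≤ (s j).length := by
      intro j
      induction j with
      | zero => exact ⟨hσ, Nat.zero_le _⟩
      | succ j ih => exact ⟨h1 _ _ ih.1, lt_of_le_of_lt ih.2 (h3 _ _ ih.1).lt⟩
    obtain ⟨x, hx⟩ := IsCompact.nonempty_iInter_of_sequence_nonempty_isCompact_isClosed
      (fun j => paths fun τ => τ.length = (s j).length → τ = s j)
      (fun j x hx n hn => by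
        rw [length_restrict] at hn
        rw [hn]
        exact restrict_of_take (hx _ (by simp)) (h3 _ _ (hs j).1).2.1)
      (fun j => ⟨ext (s j), fun n hn => by
        rw [length_restrict] at hn
        rw [hn, restrict_ext]⟩)
      (isClosed_paths _).isCompact fun _ => isClosed_paths _
    rw [mem_iInter] at hx
    exact ⟨x, fun n => ⟨k + n, s (n + 1), (hs (n + 1)).1, (Nat.le_succ n).trans (hs (n + 1)).2,
      hx (n + 1) _ (by simp)⟩, hx 0 _ (by simp [s])⟩
  have hZ : Preperfect Z := by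
    intro x hx
    refine mem_derivedSet.1 (mem_derivedSet_cantor.2 fun n => ?_)
    obtain ⟨k, σ, h1, h2, h3⟩ := hx n
    obtain ⟨τ₁, e1, τ₂, e2, e3⟩ := (hL (k + 1)).2 σ h1
    obtain ⟨y, f1, f2⟩ := hext _ _ e1
    obtain ⟨z, f3, f4⟩ := hext _ _ e2
    by_cases hyx : y = x
    · refine ⟨z, f3, fun hzx => e3.1.2 ?_, fun i hi =>
        restrict_eq_iff.1 ((restrict_of_take f4 e3.2.2).trans h3.symm) i (by omega)⟩
      rw [← f2, ← f4, e3.1.1, hyx, hzx]
    · exact ⟨y, f1, hyx, fun i hi =>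
        restrict_eq_iff.1 ((restrict_of_take f2 e3.2.1).trans h3.symm) i (by omega)⟩
  have hZA : Z ⊆ paths A := by
    intro x hx n
    obtain ⟨k, σ, h1, h2, h3⟩ := hx n
    rw [← take_restrict x h2, h3]
    exact hA _ _ ((hL k).1.2 σ h1)
  obtain ⟨σ, hσ⟩ := List.exists_mem_of_ne_nil _ (hL 0).1.1
  obtain ⟨x, hx, -⟩ := hext 0 σ hσ
  simpa [h] using preperfect_subset_D (a := a) hZ hZA hx

theorem computable_of_mem {α : Ordinal.{0}} {Q : EPi} (hQ : Q ∈ rankFamily α) :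
    IsComputableOrdinal α := by
  obtain ⟨h1, h2⟩ := mem_rankFamily.1 hQ
  obtain ⟨A, hA, hQA, hAt⟩ := (isPi01_iff.1 Q.2).tree
  have hS : Lim 0 fun z : List (List Bool) × List (List Bool) => Step A z.1 z.2 :=
    ((Lim.eq (by fun_prop) (by fun_prop)).not.and
      (Lim.ball_mem (by fun_prop) (hA.comp (by fun_prop)))).and
      (Lim.ball_mem (by fun_prop) (Lim.bex_mem (by fun_prop) (Lim.bex_mem (by fun_prop)
        (((Lim.eq (by fun_prop) (by fun_prop)).and (Lim.eq (by fun_prop) (by fun_prop)).not).and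
          ((Lim.eq (by fun_prop) (by fun_prop)).and (Lim.eq (by fun_prop) (by fun_prop)))))))
  let G : Ordinal.{0} → ℕ → Prop := fun β n => ¬ dec (List (List Bool)) n = [] ∧
    ∀ γ < β, ∀ σ ∈ dec (List (List Bool)) n, Hit (D (γ + 1) Q.1) σ
  refine computable_bound (R := fun a b => Step A (dec _ a) (dec _ b))
    (hS.comp (f := fun z : ℕ × ℕ => (dec _ z.1, dec _ z.2)) (by fun_prop))
    (InvImage.wf _ (wf_step hAt (hQA ▸ h1))) (G := G) ?_
    (x := Encodable.encode ([[]] : List (List Bool))) ⟨by rw [dec_encode]; simp, fun γ hγ σ hσ => ?_⟩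
  · rintro β n ⟨e1, e2⟩ γ hγ
    have : ∀ σ ∈ dec (List (List Bool)) n, ∃ τ₁ τ₂, Split σ τ₁ τ₂ ∧ Hit (D γ Q.1) τ₁ ∧
        Hit (D γ Q.1) τ₂ := by
      intro σ hσ
      obtain ⟨x, hx, e⟩ := e2 γ hγ σ hσ
      have hx' : x ∈ D γ Q.1 := D_anti le_self_add hx
      rw [D_succ Q.2.isClosed] at hx
      obtain ⟨y, f1, f2, f3⟩ := mem_derivedSet_cantor.1 hx σ.length
      obtain ⟨i, hi⟩ := Function.ne_iff.1 f2
      have hni : σ.length ≤ i := not_lt.1 fun hc => hi (f3 i hc)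
      refine ⟨restrict x (i + 1), restrict y (i + 1),
        ⟨⟨by simp, fun h => hi (restrict_eq_iff.1 h i (by omega)).symm⟩, ?_, ?_⟩,
        ⟨x, hx', by simp⟩, y, f1, by simp⟩
      · rw [take_restrict _ (by omega), e]
      · rw [take_restrict _ (by omega), restrict_eq_iff.2 f3, e]
    choose! τ₁ τ₂ f1 f2 f3 using this
    have hmem : ∀ τ ∈ (dec (List (List Bool)) n).map τ₁ ++ (dec (List (List Bool)) n).map τ₂,
        Hit (D γ Q.1) τ := by
      intro τ hτ
      simp only [List.mem_append, List.mem_map] at hτ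
      rcases hτ with ⟨σ, hσ, rfl⟩ | ⟨σ, hσ, rfl⟩
      exacts [f2 σ hσ, f3 σ hσ]
    refine ⟨Encodable.encode ((dec (List (List Bool)) n).map τ₁ ++ (dec (List (List Bool)) n).map τ₂),
      ?_, ?_⟩
    · rw [dec_encode]
      refine ⟨⟨e1, fun τ hτ => ?_⟩, fun σ hσ => ⟨_, List.mem_append_left _ (List.mem_map_of_mem hσ),
        _, List.mem_append_right _ (List.mem_map_of_mem hσ), f1 σ hσ⟩⟩
      obtain ⟨x, hx, e⟩ := hmem τ hτ
      exact e ▸ (hQA ▸ D_subset hx : x ∈ paths A) _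
    · refine ⟨by simpa using e1, fun δ hδ τ hτ => ?_⟩
      rw [dec_encode] at hτ
      obtain ⟨x, hx, e⟩ := hmem τ hτ
      exact ⟨x, D_anti (Order.add_one_le_of_lt hδ) hx, e⟩
  · rw [dec_encode] at hσ
    obtain rfl : σ = [] := by simpa using hσ
    obtain ⟨x, hx⟩ := nonempty_iff_ne_empty.2 (h2 γ hγ)
    exact ⟨x, hx, rfl⟩

end Pool.Agent.Lib.MP_6cbb02_lc
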