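import Pool.Agent.Lib.MP_6cbb02_lc.Defs

set_option autoImplicit false

namespace Pool.Agent.Lib.MP_6cbb02_lc

/-- Computable functions, as a predicate for `fun_prop`. -/
@[fun_prop] def Cp {α β : Type} [Primcodable α] [Primcodable β] (f : α → β) : Prop := Computable f

section Cp

variable {α β γ : Type} [Primcodable α] [Primcodable β] [Primcodable γ]

namespace Cp

@[fun_prop] lemma id' : Cp fun x : α => x := Computable.id
@[fun_prop] lemma const (b : β) : Cp fun _ : α => b := Computable.const b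
@[fun_prop] lemma comp {f : β → γ} {g : α → β} (hf : Cp f) (hg : Cp g) : Cp fun x => f (g x) :=
  Computable.comp hf hg
@[fun_prop] lemma pair {f : α → β} {g : α → γ} (hf : Cp f) (hg : Cp g) : Cp fun x => (f x, g x) :=
  Computable.pair hf hg
@[fun_prop] lemma fst {f : α → β × γ} (hf : Cp f) : Cp fun x => (f x).1 :=
  Computable.comp Computable.fst hf
@[fun_prop] lemma snd {f : α → β × γ} (hf : Cp f) : Cp fun x => (f x).2 :=
  Computable.comp Computable.snd hf
@[fun_prop] lemma take {f : α → ℕ} {g : α → List β} (hf : Cp f) (hg : Cp g) :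
    Cp fun x => List.take (f x) (g x) := Primrec.list_take.to_comp.comp hf hg
@[fun_prop] lemma length {g : α → List β} (hg : Cp g) : Cp fun x => List.length (g x) :=
  Computable.comp Computable.list_length hg
@[fun_prop] lemma getD (d : β) {f : α → ℕ} {g : α → List β} (hf : Cp f) (hg : Cp g) :
    Cp fun x => List.getD (g x) (f x) d := (Primrec.list_getD d).to_comp.comp hg hf
@[fun_prop] lemma append {f g : α → List β} (hf : Cp f) (hg : Cp g) : Cp fun x => f x ++ g x :=
  Computable.list_append.comp hf hg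
@[fun_prop] lemma cons {f : α → β} {g : α → List β} (hf : Cp f) (hg : Cp g) :
    Cp fun x => f x :: g x := Computable.list_cons.comp hf hg
@[fun_prop] lemma add {f g : α → ℕ} (hf : Cp f) (hg : Cp g) : Cp fun x => f x + g x :=
  Primrec.nat_add.to_comp.comp hf hg
@[fun_prop] lemma sub {f g : α → ℕ} (hf : Cp f) (hg : Cp g) : Cp fun x => f x - g x :=
  Primrec.nat_sub.to_comp.comp hf hg
@[fun_prop] lemma mul {f g : α → ℕ} (hf : Cp f) (hg : Cp g) : Cp fun x => f x * g x :=
  Primrec.nat_mul.to_comp.comp hf hg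
@[fun_prop] lemma encode {f : α → β} (hf : Cp f) : Cp fun x => Encodable.encode (f x) :=
  Computable.comp Computable.encode hf
@[fun_prop] lemma unpair {f : α → ℕ} (hf : Cp f) : Cp fun x => Nat.unpair (f x) :=
  Computable.comp Computable.unpair hf
@[fun_prop] lemma and {f g : α → Bool} (hf : Cp f) (hg : Cp g) : Cp fun x => (f x && g x) :=
  Primrec.and.to_comp.comp hf hg

end Cp

/-- Decoding with a default value. -/
def dec (β : Type) [Primcodable β] [Inhabited β] (n : ℕ) : β :=
  (Encodable.decode (α := β) n).getD default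

@[simp] lemma dec_encode [Inhabited β] (b : β) : dec β (Encodable.encode b) = b := by simp [dec]

@[fun_prop] lemma Cp.dec [Inhabited β] {f : α → ℕ} (hf : Cp f) : Cp fun x => dec β (f x) :=
  Computable.option_getD (Computable.comp Computable.decode hf) (Computable.const _)

end Cp

/-- `Lim m p`: the predicate `p` is an `m`-fold iterated limit of a computable predicate. -/
def Lim : ℕ → ∀ {α : Type} [Primcodable α], (α → Prop) → Prop
  | 0, _, _, p => ComputablePred p
  | m + 1, α, _, p => ∃ q : α × ℕ → Prop, Lim m q ∧ ∀ a, ∃ s₀, ∀ s, s₀ ≤ s → (q (a, s) ↔ p a)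

namespace Lim

variable {α β : Type} [Primcodable α] [Primcodable β] {m : ℕ}

lemma of_iff {p q : α → Prop} (hp : Lim m p) (h : ∀ a, p a ↔ q a) : Lim m q :=
  (funext fun a => propext (h a) : p = q) ▸ hp

lemma comp {p : β → Prop} (hp : Lim m p) {f : α → β} (hf : Cp f) : Lim m fun a => p (f a) := by
  induction m generalizing α β with
  | zero =>
    obtain ⟨_, hp⟩ := hp
    exact ⟨inferInstance, Computable.comp hp hf⟩
  | succ m ih =>
    obtain ⟨q, hq, h⟩ := hp
    exact ⟨fun z => q (f z.1, z.2), ih hq (by fun_prop), fun a => h (f a)⟩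

lemma succ {p : α → Prop} (hp : Lim m p) : Lim (m + 1) p :=
  ⟨fun z => p z.1, hp.comp (by fun_prop), fun _ => ⟨0, fun _ _ => Iff.rfl⟩⟩

lemma mono {p : α → Prop} {n : ℕ} (hp : Lim m p) (h : m ≤ n) : Lim n p := by
  induction h with
  | refl => exact hp
  | step _ ih => exact ih.succ

lemma of_comp {p : α → Prop} (hp : ComputablePred p) : Lim m p :=
  mono (m := 0) hp (Nat.zero_le _)

lemma not {p : α → Prop} (hp : Lim m p) : Lim m fun a => ¬ p a := by
  induction m generalizing α with
  | zero => exact ComputablePred.not hp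
  | succ m ih =>
    obtain ⟨q, hq, h⟩ := hp
    refine ⟨fun z => ¬ q z, ih hq, fun a => ?_⟩
    obtain ⟨s₀, h⟩ := h a
    exact ⟨s₀, fun s hs => not_congr (h s hs)⟩

lemma and {p q : α → Prop} (hp : Lim m p) (hq : Lim m q) : Lim m fun a => p a ∧ q a := by
  induction m generalizing α with
  | zero =>
    obtain ⟨f, hf, rfl⟩ := ComputablePred.computable_iff.1 hp
    obtain ⟨g, hg, rfl⟩ := ComputablePred.computable_iff.1 hq
    exact ComputablePred.computable_iff.2 ⟨fun a => f a && g a,
      Primrec.and.to_comp.comp hf hg, by ext a; simp⟩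
  | succ m ih =>
    obtain ⟨p', hp', h⟩ := hp
    obtain ⟨q', hq', h'⟩ := hq
    refine ⟨fun z => p' z ∧ q' z, ih hp' hq', fun a => ?_⟩
    obtain ⟨s₀, h⟩ := h a
    obtain ⟨s₁, h'⟩ := h' a
    exact ⟨max s₀ s₁, fun s hs => and_congr (h s (by omega)) (h' s (by omega))⟩

lemma or {p q : α → Prop} (hp : Lim m p) (hq : Lim m q) : Lim m fun a => p a ∨ q a :=
  (hp.not.and hq.not).not.of_iff fun a => by tauto

lemma imp {p q : α → Prop} (hp : Lim m p) (hq : Lim m q) : Lim m fun a => p a → q a :=
  (hp.and hq.not).not.of_iff fun a => by tauto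

lemma eq {f g : α → β} (hf : Cp f) (hg : Cp g) : Lim m fun a => f a = g a := by
  have : PrimrecPred fun z : β × β => z.1 = z.2 := Primrec.eq
  exact (of_comp this.computablePred).comp (f := fun a => (f a, g a)) (by fun_prop)

lemma le {f g : α → ℕ} (hf : Cp f) (hg : Cp g) : Lim m fun a => f a ≤ g a := by
  have : PrimrecPred fun z : ℕ × ℕ => z.1 ≤ z.2 := Primrec.nat_le
  exact (of_comp this.computablePred).comp (f := fun a => (f a, g a)) (by fun_prop)

lemma lt {f g : α → ℕ} (hf : Cp f) (hg : Cp g) : Lim m fun a => f a < g a := by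
  have : PrimrecPred fun z : ℕ × ℕ => z.1 < z.2 := Primrec.nat_lt
  exact (of_comp this.computablePred).comp (f := fun a => (f a, g a)) (by fun_prop)

lemma const (q : Prop) : Lim m fun _ : α => q := by
  by_cases h : q
  · exact (eq (f := fun _ => 0) (g := fun _ => 0) (by fun_prop) (by fun_prop)).of_iff
      fun _ => by simp [h]
  · exact (eq (f := fun _ => 0) (g := fun _ => 1) (by fun_prop) (by fun_prop)).of_iff
      fun _ => by simp [h]

lemma ball' {p : α × ℕ → Prop} (hp : Lim m p) : Lim m fun z : α × ℕ => ∀ i < z.2, p (z.1, i) := by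
  induction m generalizing α with
  | zero =>
    obtain ⟨f, hf, rfl⟩ := ComputablePred.computable_iff.1 hp
    have hf' : Cp f := hf
    have h1 : Computable fun z : α × ℕ =>
        (Nat.rec true (fun i b => b && f (z.1, i)) z.2 : Bool) :=
      Computable.nat_rec (h := fun (z : α × ℕ) (y : ℕ × Bool) => y.2 && f (z.1, y.1))
        Computable.snd (Computable.const _)
        (show Cp fun w : (α × ℕ) × ℕ × Bool => (w.2.2 && f (w.1.1, w.2.1)) by fun_prop)
    refine ComputablePred.computable_iff.2 ⟨_, h1, ?_⟩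
    ext ⟨a, n⟩
    induction n with
    | zero => simp
    | succ n ih =>
      simp only [Bool.and_eq_true] at ih ⊢
      rw [← ih]
      exact Nat.forall_lt_succ_right
  | succ m ih =>
    obtain ⟨q, hq, h⟩ := hp
    refine ⟨fun z => ∀ i < z.1.2, q ((z.1.1, i), z.2), ?_, fun z => ?_⟩
    · exact (ih (p := fun y : (α × ℕ) × ℕ => q ((y.1.1, y.2), y.1.2)) (hq.comp (by fun_prop))).comp
        (f := fun z : (α × ℕ) × ℕ => ((z.1.1, z.2), z.1.2)) (by fun_prop)
    · choose s₀ hs using h
      refine ⟨(Finset.range z.2).sup fun i => s₀ (z.1, i), fun s hs' => ?_⟩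
      refine forall₂_congr fun i hi => hs _ _ (le_trans ?_ hs')
      exact Finset.le_sup (f := fun i => s₀ (z.1, i)) (Finset.mem_range.2 hi)

lemma ball {p : α → ℕ → Prop} {f : α → ℕ} (hf : Cp f) (hp : Lim m fun z : α × ℕ => p z.1 z.2) :
    Lim m fun a => ∀ i < f a, p a i :=
  hp.ball'.comp (f := fun a => (a, f a)) (by fun_prop)

lemma bex {p : α → ℕ → Prop} {f : α → ℕ} (hf : Cp f) (hp : Lim m fun z : α × ℕ => p z.1 z.2) :
    Lim m fun a => ∃ i < f a, p a i :=
  (ball (p := fun a i => ¬ p a i) hf hp.not).not.of_iff fun a => by push Not; rfl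

lemma ball_mem [Inhabited β] {p : α → β → Prop} {f : α → List β} (hf : Cp f)
    (hp : Lim m fun z : α × β => p z.1 z.2) : Lim m fun a => ∀ b ∈ f a, p a b := by
  refine (ball (p := fun a i => p a ((f a).getD i default)) (f := fun a => (f a).length)
    (by fun_prop) (hp.comp (f := fun z : α × ℕ => (z.1, (f z.1).getD z.2 default))
      (by fun_prop))).of_iff fun a => ?_
  constructor
  · intro h b hb
    obtain ⟨i, hi, rfl⟩ := List.getElem_of_mem hb
    simpa [List.getD_eq_getElem?_getD, hi] using h i hi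
  · intro h i hi
    simpa [List.getD_eq_getElem?_getD, hi] using h _ (List.getElem_mem hi)

lemma bex_mem [Inhabited β] {p : α → β → Prop} {f : α → List β} (hf : Cp f)
    (hp : Lim m fun z : α × β => p z.1 z.2) : Lim m fun a => ∃ b ∈ f a, p a b :=
  (ball_mem (p := fun a i => ¬ p a i) hf hp.not).not.of_iff fun a => by push Not; rfl

lemma ex [Inhabited β] {p : α → β → Prop} (hp : Lim m fun z : α × β => p z.1 z.2) :
    Lim (m + 1) fun a => ∃ b, p a b := by
  have h0 : Lim m fun z : α × ℕ => ∃ i < z.2, p z.1 (dec β i) :=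
    bex (p := fun (z : α × ℕ) i => p z.1 (dec β i)) (by fun_prop)
      (hp.comp (f := fun y : (α × ℕ) × ℕ => (y.1.1, dec β y.2)) (by fun_prop))
  refine ⟨_, h0, fun a => ?_⟩
  by_cases h : ∃ b, p a b
  · obtain ⟨b, hb⟩ := h
    exact ⟨Encodable.encode b + 1, fun s hs =>
      iff_of_true ⟨Encodable.encode b, hs, by simpa using hb⟩ ⟨b, hb⟩⟩
  · exact ⟨0, fun s _ => iff_of_false (fun ⟨i, _, hi⟩ => h ⟨_, hi⟩) h⟩

lemma all [Inhabited β] {p : α → β → Prop} (hp : Lim m fun z : α × β => p z.1 z.2) :
    Lim (m + 1) fun a => ∀ b, p a b :=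
  (ex (p := fun a i => ¬ p a i) hp.not).not.of_iff fun a => by push Not; rfl

end Lim

lemma lim_zero {α : Type} [Primcodable α] {p : α → Prop} : Lim 0 p ↔ ComputablePred p := Iff.rfl

lemma lim_succ {α : Type} [Primcodable α] {p : α → Prop} {m : ℕ} : Lim (m + 1) p ↔
    ∃ q : α × ℕ → Prop, Lim m q ∧ ∀ a, ∃ s₀, ∀ s, s₀ ≤ s → (q (a, s) ↔ p a) := Iff.rfl

lemma cp_iff {α β : Type} [Primcodable α] [Primcodable β] {f : α → β} : Cp f ↔ Computable f :=
  Iff.rfl

attribute [irreducible] Lim Cp

end Pool.Agent.Lib.MP_6cbb02_lc
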