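import Pool.Agent.Lib.MP_6cbb02_lc.Graft
import Pool.Agent.Lib.MP_6cbb02_lc.Fam

set_option autoImplicit false

namespace Pool.Agent.Lib.MP_6cbb02_lc

open Set Topology Encodable FirstOrder Nat.Partrec.Code
open Nat.Partrec (Code)

lemma lim_evaln : Lim 0 fun z : (Code × List Bool) × ℕ => evaln z.2 z.1.1 (encode z.1.2) = none :=
  Lim.eq (Cp.comp (f := fun a : (ℕ × Code) × ℕ => evaln a.1.1 a.1.2 a.2)
    (g := fun z : (Code × List Bool) × ℕ => ((z.2, z.1.1), encode z.1.2))
    (cp_iff.2 primrec_evaln.to_comp) (by fun_prop)) (by fun_prop)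

/-- The class with code `c`. -/
def cls (c : Code) : EPi :=
  ⟨paths fun σ => ∀ S, evaln S c (encode σ) = none, isPi01_iff.2 (Cl.of_forall
    (q := fun σ S => evaln S c (encode σ) = none)
    (lim_evaln.comp (f := fun z : List Bool × ℕ => ((c, z.1), z.2)) (by fun_prop)))⟩

lemma exists_fixed {K : Code → Set (ℕ → Bool)} (h : ClU 0 K) : ∃ c, (cls c).1 = K c := by
  obtain ⟨A, hA, hK⟩ := h
  have h1 : ComputablePred fun z : Code × ℕ => ¬ A z.1 (dec (List Bool) z.2) :=
    lim_zero.1 (hA.comp (f := fun z : Code × ℕ => (z.1, dec (List Bool) z.2)) (by fun_prop)).not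
  have h2 : Partrec₂ fun (c : Code) (n : ℕ) =>
      (Part.assert (¬ A c (dec (List Bool) n)) fun _ => Part.some ()).map fun _ => 0 :=
    Partrec.map h1.to_re (Computable.const 0).to₂
  obtain ⟨c, hc⟩ := fixed_point₂ h2
  refine ⟨c, ?_⟩
  rw [hK]
  ext x
  refine forall_congr' fun n => ?_
  have h3 : ∀ k, (∃ S, k ∈ evaln S c (encode (restrict x n))) ↔ ¬ A c (restrict x n) ∧ 0 = k := by
    intro k
    rw [← evaln_complete, hc]
    simp [Part.mem_assert_iff]
  constructor
  · intro h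
    by_contra hc
    obtain ⟨S, hS⟩ := (h3 0).2 ⟨hc, rfl⟩
    simp [h S] at hS
  · intro h S
    exact Option.eq_none_iff_forall_not_mem.2 fun k hk => ((h3 k).1 ⟨S, hk⟩).1 h

lemma cls_surjective : Function.Surjective cls := by
  intro P
  obtain ⟨A, hA, hP⟩ := isPi01_iff.1 P.2
  obtain ⟨c, hc⟩ := exists_fixed (K := fun _ => P.1) ⟨fun _ => A, hA.comp (by fun_prop), fun _ => hP⟩
  exact ⟨c, Subtype.ext hc⟩

lemma lim_le : Lim 4 fun z : Code × Code => cls z.1 ≤ cls z.2 := by
  have h1 : Lim 1 fun z : Code × List Bool => ∀ S, evaln S z.1 (encode z.2) = none :=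
    Lim.all lim_evaln
  have h2 := Lim.hit (A := fun (c : Code) σ => ∀ S, evaln S c (encode σ) = none) h1
  refine (Lim.all (p := fun (z : Code × Code) (σ : List Bool) => Hit (cls z.1).1 σ →
    ∀ S, evaln S z.2 (encode σ) = none)
    ((h2.comp (f := fun z : (Code × Code) × List Bool => (z.1.1, z.2)) (by fun_prop)).imp
      ((h1.mono (by omega)).comp (f := fun z : (Code × Code) × List Bool => (z.1.2, z.2))
        (by fun_prop)))).of_iff fun z => ⟨fun h x hx n => h _ ⟨x, hx, by simp⟩, ?_⟩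
  rintro h σ ⟨x, hx, e⟩
  exact e ▸ h hx σ.length

lemma lim_realize {n : ℕ} (φ : Language.order.BoundedFormula Unit n) :
    ∀ {β : Type} [Primcodable β] (v : β → Code) (xs : Fin n → β → Code), Cp v → (∀ i, Cp (xs i)) →
      letI := Language.orderStructure EPi
      ∃ m, Lim m fun b => φ.Realize (fun _ => cls (v b)) fun i => cls (xs i b) := by
  let := Language.orderStructure EPi
  have term : ∀ {n : ℕ} (t : Language.order.Term (Unit ⊕ Fin n)) {β : Type} [Primcodable β]
      (v : β → Code) (xs : Fin n → β → Code), Cp v → (∀ i, Cp (xs i)) → ∃ f : β → Code, Cp f ∧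
        ∀ b, t.realize (Sum.elim (fun _ => cls (v b)) fun i => cls (xs i b)) = cls (f b) := by
    intro n t β _ v xs hv hxs
    cases t with
    | var a =>
      cases a with
      | inl a => exact ⟨v, hv, fun _ => rfl⟩
      | inr a => exact ⟨xs a, hxs a, fun _ => rfl⟩
    | func f _ => exact f.elim
  induction φ with
  | falsum => exact fun v xs _ _ => ⟨0, Lim.const False⟩
  | equal t₁ t₂ =>
    intro β _ v xs hv hxs
    obtain ⟨f₁, h1, e1⟩ := term t₁ v xs hv hxs
    obtain ⟨f₂, h2, e2⟩ := term t₂ v xs hv hxs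
    refine ⟨4, ((lim_le.comp (f := fun b => (f₁ b, f₂ b)) (by fun_prop)).and
      (lim_le.comp (f := fun b => (f₂ b, f₁ b)) (by fun_prop))).of_iff fun b => ?_⟩
    simp only [Language.BoundedFormula.Realize, e1, e2]
    exact le_antisymm_iff.symm
  | rel R ts =>
    intro β _ v xs hv hxs
    cases R
    obtain ⟨f₁, h1, e1⟩ := term (ts 0) v xs hv hxs
    obtain ⟨f₂, h2, e2⟩ := term (ts 1) v xs hv hxs
    refine ⟨4, (lim_le.comp (f := fun b => (f₁ b, f₂ b)) (by fun_prop)).of_iff fun b => ?_⟩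
    rw [← e1, ← e2]
    rfl
  | imp φ ψ ih₁ ih₂ =>
    intro β _ v xs hv hxs
    obtain ⟨m₁, h1⟩ := ih₁ v xs hv hxs
    obtain ⟨m₂, h2⟩ := ih₂ v xs hv hxs
    exact ⟨max m₁ m₂, (h1.mono (le_max_left _ _)).imp (h2.mono (le_max_right _ _))⟩
  | @all n φ ih =>
    intro β _ v xs hv hxs
    obtain ⟨m, h⟩ := ih (β := β × Code) (fun z => v z.1)
      (Fin.snoc (α := fun _ => β × Code → Code) (fun i z => xs i z.1) fun z => z.2) (by fun_prop)
      (fun i => by
        refine Fin.lastCases ?_ (fun i => ?_) i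
        · rw [Fin.snoc_last]; fun_prop
        · rw [Fin.snoc_castSucc]; fun_prop)
    refine ⟨m + 1, (Lim.all (p := fun b c => φ.Realize (fun _ => cls (v b))
      (Fin.snoc (fun i => cls (xs i b)) (cls c))) (h.of_iff fun z => ?_)).of_iff fun b => ?_⟩
    · refine iff_of_eq (congrArg _ (funext fun i => ?_))
      refine Fin.lastCases ?_ (fun i => ?_) i <;> simp
    · rw [Language.BoundedFormula.realize_all, cls_surjective.forall]

theorem not_isDefinable {α : Ordinal.{0}} (hα : Ordinal.omega0 ≤ α) {Q : EPi}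
    (hQ : Q ∈ rankFamily α) : ¬ IsDefinable (rankFamily α) := by
  let := Language.orderStructure EPi
  rintro ⟨φ, hφ⟩
  obtain ⟨m, hm⟩ := lim_realize φ (β := Code) (fun c => c) Fin.elim0 (by fun_prop) fun i => i.elim0
  have hm' : Lim m fun c => cls c ∈ rankFamily α := hm.of_iff fun c => by
    rw [hφ]
    exact iff_of_eq (congrArg _ (Subsingleton.elim _ _))
  obtain ⟨A, hA, hQA⟩ := isPi01_iff.1 Q.2
  obtain ⟨K, hK, h⟩ := ClU.lower_zero m (K := fun c => paths fun σ => cls c ∉ rankFamily α ∧ A σ)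
    ⟨_, (hm'.comp (by fun_prop)).not.and ((hA.mono (Nat.zero_le _)).comp (by fun_prop)),
      fun _ => rfl⟩
  obtain ⟨c, hc⟩ := exists_fixed hK
  have hmα : (m : Ordinal) < α := (Ordinal.natCast_lt_omega0 m).trans_le hα
  by_cases hcα : cls c ∈ rankFamily α
  · refine (mem_rankFamily.1 hcα).2 m hmα (hc ▸ (h c 1).2 (subset_empty_iff.1 ?_))
    exact D_subset.trans fun x hx => (hx 0).1 hcα
  · have e : (paths fun σ => cls c ∉ rankFamily α ∧ A σ) = Q.1 := by simp [hcα, hQA]
    have h' := h c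
    simp only [e] at h'
    obtain ⟨q1, q2⟩ := mem_rankFamily.1 hQ
    refine hcα (mem_rankFamily.2 ⟨?_, fun β hβ h0 => q2 β hβ ((h' _).1 (hc ▸ h0))⟩)
    have := (h' _).2 q1
    rwa [← add_assoc, Ordinal.natCast_add_of_omega0_le hα, ← hc] at this

end Pool.Agent.Lib.MP_6cbb02_lc
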