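import Pool.Agent.Lib.MP_6cbb02_lc.Dfn
import Pool.Agent.Lib.MP_6cbb02_lc.NonDef
import Pool.Agent.Lib.MP_6cbb02_lc.Kreisel

set_option autoImplicit false

namespace Pool.Agent.Lib.MP_6cbb02_lc

theorem isDefinable_rankFamily_iff (α : Ordinal.{0}) :
    IsDefinable (rankFamily α) ↔ α < Ordinal.omega0 ∨ omega1CK ≤ α := by
  constructor
  · intro h
    by_contra hc
    push Not at hc
    obtain ⟨Q, hQ⟩ := exists_rank (isComputableOrdinal_iff.2 hc.2)
    exact not_isDefinable hc.1 hQ h
  · rintro (h | h)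
    · obtain ⟨n, rfl⟩ := Ordinal.lt_omega0.1 h
      exact isDefinable_rankFamily_nat n
    · have : rankFamily α = ∅ := Set.eq_empty_iff_forall_notMem.2 fun Q hQ =>
        absurd (isComputableOrdinal_iff.1 (computable_of_mem hQ)) (not_lt.2 h)
      exact this ▸ isDefinable_empty

end Pool.Agent.Lib.MP_6cbb02_lc
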