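import Pool.Agent.Lib.MP_6cbb02_lc.CB

set_option autoImplicit false

namespace Pool.Agent.Lib.MP_6cbb02_lc

open Set Topology Ordinal

theorem exists_rank {α : Ordinal.{0}} (hα : IsComputableOrdinal α) : (rankFamily α).Nonempty := by
  classical
  obtain ⟨S, r, hS, hr, wo, rfl⟩ := hα
  set s : S → S → Prop := fun a b => r a.1 b.1
  let rk : ℕ → Ordinal.{0} := fun a => if h : a ∈ S then typein s ⟨a, h⟩ else 0
  have rk1 : ∀ a ∈ S, rk a < type s := fun a h => by simp only [rk, dif_pos h, typein_lt_type]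
  have rk2 : ∀ a ∈ S, ∀ b ∈ S, rk a < rk b ↔ r a b := fun a h b h' => by
    simp only [rk, dif_pos h, dif_pos h', typein_lt_typein, s]
  let P : Set (ℕ → Bool) := {y | ∀ t, y t = true → t.unpair.1 ∈ S ∧
    ∀ t' < t, y t' = true → r t.unpair.1 t'.unpair.1}
  have hP : Cl 0 P := by
    refine ⟨fun σ => ∀ t < σ.length, σ.getD t false = true → t.unpair.1 ∈ S ∧
      ∀ t' < t, σ.getD t' false = true → r t.unpair.1 t'.unpair.1,
      Lim.ball (by fun_prop) ((Lim.eq (by fun_prop) (by fun_prop)).imp
        (((lim_zero.2 hS).comp (by fun_prop)).and (Lim.ball (by fun_prop)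
          ((Lim.eq (by fun_prop) (by fun_prop)).imp ((lim_zero.2 hr).comp
            (f := fun z : (List Bool × ℕ) × ℕ => (z.1.2.unpair.1, z.2.unpair.1))
              (by fun_prop)))))), ?_⟩
    ext y
    refine ⟨fun hy n t ht h => ?_, fun hy t h => ?_⟩
    · rw [length_restrict] at ht
      rw [getD_restrict ht] at h
      exact ⟨(hy t h).1, fun t' h1 h2 => (hy t h).2 t' h1 ((getD_restrict (h1.trans ht)).symm.trans h2)⟩
    · have := hy (t + 1) t (by simp) (by rw [getD_restrict (by omega), h])
      exact ⟨this.1, fun t' h1 h2 => this.2 t' h1 (by rw [getD_restrict (by omega), h2])⟩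
  have hfin : ∀ y ∈ P, ∃ L, ∀ t, L ≤ t → y t ≠ true := by
    intro y hy
    by_cases h : ∃ t, y t = true
    · obtain ⟨t, h1, h2⟩ := (InvImage.wf (fun t : ℕ => rk t.unpair.1) Ordinal.lt_wf).has_min
        {t | y t = true} h
      exact ⟨t + 1, fun u hu h3 => h2 u h3
        ((rk2 _ (hy u h3).1 _ (hy t h1).1).2 ((hy u h3).2 t hu h1))⟩
    · exact ⟨0, fun t _ h' => h ⟨t, h'⟩⟩
  have key : ∀ β, D β P = {y ∈ P | β ≤ type s ∧ ∀ t, y t = true → β ≤ rk t.unpair.1} := by
    intro β
    induction β using Ordinal.limitRecOn with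
    | zero => simp [D]
    | add_one β ih =>
      ext y
      constructor
      · intro hy
        have hyP : y ∈ P := D_subset hy
        rw [D_succ hP.isClosed, ih] at hy
        obtain ⟨L, hL⟩ := hfin y hyP
        obtain ⟨z, ⟨h1, h2, h3⟩, hne, hzy⟩ := mem_derivedSet_cantor.1 hy L
        obtain ⟨t, ht⟩ := Function.ne_iff.1 hne
        have hLt : L ≤ t := not_lt.1 fun h => ht (hzy t h)
        have hz : z t = true := by
          have := hL t hLt
          revert ht this
          cases z t <;> cases y t <;> simp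
        refine ⟨hyP, Order.add_one_le_of_lt ((h3 t hz).trans_lt (rk1 _ (h1 t hz).1)),
          fun u hu => Order.add_one_le_of_lt ((h3 t hz).trans_lt ?_)⟩
        have huL : u < L := not_le.1 fun h => hL u h hu
        exact (rk2 _ (h1 t hz).1 _ (hyP u hu).1).2 ((h1 t hz).2 u (by omega) ((hzy u huL).trans hu))
      · rintro ⟨hyP, h1, h2⟩
        rw [D_succ hP.isClosed, ih]
        obtain ⟨L, hL⟩ := hfin y hyP
        obtain ⟨⟨b, hb⟩, rfl⟩ := typein_surj s (Order.add_one_le_iff.1 h1)
        have hrk : rk b = typein s ⟨b, hb⟩ := dif_pos hb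
        refine mem_derivedSet_cantor.2 fun n => ?_
        have ht := Nat.right_le_pair b (max n L)
        set t := Nat.pair b (max n L) with htd
        have htb : t.unpair.1 = b := by simp [htd]
        have hev : ∀ u, Function.update y t true u = true → u = t ∨ (y u = true ∧ u < L) := by
          intro u hu
          by_cases h : u = t
          · exact Or.inl h
          · rw [Function.update_of_ne h] at hu
            exact Or.inr ⟨hu, not_le.1 fun h => hL u h hu⟩
        refine ⟨Function.update y t true, ⟨fun u hu => ?_, (Order.add_one_le_iff.1 h1).le,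
          fun u hu => ?_⟩, fun h => hL t (by omega) (by simpa using (congrFun h t).symm),
          fun i hi => Function.update_of_ne (by omega) _ _⟩
        · rcases hev u hu with rfl | ⟨e1, e2⟩
          · refine ⟨htb ▸ hb, fun v hv e => ?_⟩
            rw [Function.update_of_ne hv.ne] at e
            rw [htb, ← rk2 _ hb _ (hyP v e).1, hrk]
            exact Order.add_one_le_iff.1 (h2 v e)
          · refine ⟨(hyP u e1).1, fun v hv e => (hyP u e1).2 v hv ?_⟩
            rwa [Function.update_of_ne (by omega)] at e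
        · rcases hev u hu with rfl | ⟨e1, -⟩
          · rw [htb, hrk]
          · exact (Order.add_one_le_iff.1 (h2 u e1)).le
    | limit β hβ ih =>
      ext y
      rw [mem_D_limit hβ]
      constructor
      · intro h
        have h' := fun b hb => (ih b hb ▸ h b hb :
          y ∈ {y ∈ P | b ≤ type s ∧ ∀ t, y t = true → b ≤ rk t.unpair.1})
        exact ⟨(h' 0 hβ.pos).1, hβ.le_iff_forall_le.2 fun b hb => (h' b hb).2.1,
          fun t ht => hβ.le_iff_forall_le.2 fun b hb => (h' b hb).2.2 t ht⟩
      · rintro ⟨h1, h2, h3⟩ b hb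
        rw [ih b hb]
        exact ⟨h1, hb.le.trans h2, fun t ht => hb.le.trans (h3 t ht)⟩
  refine ⟨⟨P, isPi01_iff.2 hP⟩, mem_rankFamily.2 ⟨?_, fun β hβ => ?_⟩⟩
  · rw [key]
    exact eq_empty_iff_forall_notMem.2 fun y hy => absurd hy.2.1 (not_le.2 (lt_add_one _))
  · rw [key]
    exact Nonempty.ne_empty ⟨fun _ => false, by simp [P], Order.add_one_le_of_lt hβ, by simp⟩

lemma IsComputableOrdinal.of_le {α β : Ordinal.{0}} (hα : IsComputableOrdinal α) (h : β ≤ α) :
    IsComputableOrdinal β := by
  rcases h.eq_or_lt with rfl | h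
  · exact hα
  obtain ⟨S, r, hS, hr, wo, rfl⟩ := hα
  obtain ⟨a, rfl⟩ := typein_surj _ h
  let e : (fun x y : {n | n ∈ S ∧ r n a.1} => r x.1 y.1) ≃r
      Subrel (fun x y : S => r x.1 y.1) (fun x => r x.1 a.1) :=
    { toFun := fun x => ⟨⟨x.1, x.2.1⟩, x.2.2⟩
      invFun := fun x => ⟨x.1.1, x.1.2, x.2⟩
      left_inv := fun _ => rfl
      right_inv := fun _ => rfl
      map_rel_iff' := Iff.rfl }
  have := e.toRelEmbedding.isWellOrder
  exact ⟨{n | n ∈ S ∧ r n a.1}, r, lim_zero.1 ((lim_zero.2 hS).and ((lim_zero.2 hr).comp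
    (f := fun n => (n, a.1)) (by fun_prop))), hr, this, e.ordinalType_congr⟩

lemma isComputableOrdinal_iff {α : Ordinal.{0}} : IsComputableOrdinal α ↔ α < omega1CK := by
  refine ⟨fun h => not_le.1 fun hle => ?_, fun h => not_not.1 (notMem_of_lt_csInf' h)⟩
  refine csInf_mem (s := {α | ¬ IsComputableOrdinal α}) ⟨(Cardinal.aleph 1).ord, ?_⟩ (h.of_le hle)
  rintro ⟨S, r, -, -, wo, h⟩
  have := congrArg Ordinal.card h
  rw [card_type, Cardinal.card_ord] at this
  exact absurd (this ▸ Cardinal.mk_le_aleph0) (not_le.2 Cardinal.aleph0_lt_aleph_one)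

lemma lex_stab (f : ℕ → ℕ → ℕ∞) (h : ∀ n, toLex (f (n + 1)) < toLex (f n)) (i : ℕ) :
    ∃ N, ∀ n, N ≤ n → ∀ j < i, f n j = f N j := by
  induction i with
  | zero => exact ⟨0, by simp⟩
  | succ i ih =>
    obtain ⟨N, hN⟩ := ih
    obtain ⟨M, h1, h2⟩ := (InvImage.wf (fun n => f n i) wellFounded_lt).has_min {n | N ≤ n}
      ⟨N, (le_rfl : N ≤ N)⟩
    refine ⟨M, fun n hn j hj => ?_⟩
    rcases (Nat.lt_succ_iff.1 hj).eq_or_lt with rfl | hj
    · refine le_antisymm ?_ (not_lt.1 (h2 n (le_trans h1 hn)))
      exact Pi.apply_le_of_toLex (strictAnti_nat_of_succ_lt h |>.antitone hn) fun k hk =>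
        (hN n (le_trans h1 hn) k hk).trans (hN M h1 k hk).symm
    · exact (hN n (le_trans h1 hn) j hj).trans (hN M h1 j hj).symm

/-- A list as a sequence in `ℕ∞`. -/
def key (l : List ℕ) (i : ℕ) : ℕ∞ := if i < l.length then (l.getD i 0 : ℕ) else ⊤

lemma key_injective : Function.Injective key := by
  intro s t h
  have h1 : ∀ i, i < s.length ↔ i < t.length := by
    intro i
    have := congrFun h i
    unfold key at this
    split_ifs at this with e1 e2 e2
    · exact iff_of_true e1 e2
    · simp at this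
    · simp at this
    · exact iff_of_false e1 e2
  have h2 : s.length = t.length := eq_of_forall_lt_iff h1
  refine List.ext_getElem h2 fun i e1 e2 => ?_
  simpa [key, e1, e2, List.getD_eq_getElem?_getD] using congrFun h i

/-- The Kleene-Brouwer order. -/
def KB (s t : List ℕ) : Prop := ∃ i < s.length, (∀ j < i, j < t.length ∧ s.getD j 0 = t.getD j 0) ∧
  (t.length ≤ i ∨ s.getD i 0 < t.getD i 0)

lemma kb_iff {s t : List ℕ} : KB s t ↔ toLex (key s) < toLex (key t) := by
  constructor
  · rintro ⟨i, h1, h2, h3⟩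
    refine ⟨i, fun j hj => ?_, ?_⟩
    · simp only [Pi.toLex_apply, key, if_pos (hj.trans h1), if_pos (h2 j hj).1, (h2 j hj).2]
    · simp only [Pi.toLex_apply, key, if_pos h1]
      split_ifs with h
      · exact Nat.cast_lt.2 (h3.resolve_left (by omega))
      · exact ENat.natCast_lt_top _
  · rintro ⟨i, h1, h2⟩
    simp only [Pi.toLex_apply, key] at h1 h2
    have hi : i < s.length := by
      by_contra hc
      simp [hc] at h2
    refine ⟨i, hi, fun j hj => ?_, ?_⟩
    · have := h1 j hj
      rw [if_pos (hj.trans hi)] at this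
      split_ifs at this with h
      · exact ⟨h, Nat.cast_injective this⟩
      · simp at this
    · rw [if_pos hi] at h2
      split_ifs at h2 with h
      · exact Or.inr (Nat.cast_lt.1 h2)
      · exact Or.inl (not_lt.1 h)

theorem computable_bound {R : ℕ → ℕ → Prop} (hR : Lim 0 fun z : ℕ × ℕ => R z.1 z.2)
    (wf : WellFounded R) {G : Ordinal.{0} → ℕ → Prop}
    (hG : ∀ β x, G β x → ∀ γ < β, ∃ y, R y x ∧ G γ y) {β : Ordinal.{0}} {x : ℕ} (h : G β x) :
    IsComputableOrdinal β := by
  let W : List ℕ → Prop := fun l => ∀ i < l.length, i + 1 < l.length →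
    R (l.getD (i + 1) 0) (l.getD i 0)
  have hW : Lim 0 W := Lim.ball (by fun_prop) ((Lim.lt (by fun_prop) (by fun_prop)).imp
    (hR.comp (f := fun z : List ℕ × ℕ => (z.1.getD (z.2 + 1) 0, z.1.getD z.2 0)) (by fun_prop)))
  have hKB : Lim 0 fun z : List ℕ × List ℕ => KB z.1 z.2 :=
    Lim.bex (by fun_prop) ((Lim.ball (by fun_prop) ((Lim.lt (by fun_prop) (by fun_prop)).and
      (Lim.eq (by fun_prop) (by fun_prop)))).and
        ((Lim.le (by fun_prop) (by fun_prop)).or (Lim.lt (by fun_prop) (by fun_prop))))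
  let S : Set ℕ := {n | W (dec (List ℕ) n) ∧ Encodable.encode (dec (List ℕ) n) = n}
  let r : ℕ → ℕ → Prop := fun a b => KB (dec (List ℕ) a) (dec (List ℕ) b)
  let e : (fun a b : S => r a.1 b.1) ↪r ((· < ·) : Lex (ℕ → ℕ∞) → _ → Prop) :=
    { toFun := fun a => toLex (key (dec (List ℕ) a.1))
      inj' := fun a b h => Subtype.ext
        (by rw [← a.2.2, ← b.2.2, key_injective (toLex.injective h)])
      map_rel_iff' := kb_iff.symm }
  have hwf : WellFounded fun a b : S => r a.1 b.1 := by
    refine wellFounded_iff_isEmpty_descending_chain.2 ⟨fun ⟨f, hf⟩ => ?_⟩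
    let l : ℕ → List ℕ := fun n => dec (List ℕ) (f n).1
    have hl : ∀ n, toLex (key (l (n + 1))) < toLex (key (l n)) := fun n => kb_iff.1 (hf n)
    choose N hN using lex_stab (fun n => key (l n)) hl
    have hlen : ∀ i n, N i ≤ n → i < (l (n + 1)).length := by
      intro i n hn
      obtain ⟨k, h1, h2⟩ := hl n
      have hk : i ≤ k := not_lt.1 fun hk =>
        h2.ne ((hN i (n + 1) (by omega) k hk).trans (hN i n hn k hk).symm)
      by_contra hc
      simp [key, show ¬ k < (l (n + 1)).length by omega] at h2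
    have hval : ∀ i n, N (i + 1) ≤ n → (l (n + 1)).getD i 0 = (l (N (i + 1) + 1)).getD i 0 := by
      intro i n hn
      have := (hN (i + 1) (n + 1) (by omega) i (by omega)).trans
        (hN (i + 1) (N (i + 1) + 1) (by omega) i (by omega)).symm
      have h1 := hlen (i + 1) n hn
      have h2 := hlen (i + 1) _ le_rfl
      rw [key, key, if_pos (by omega), if_pos (by omega)] at this
      exact Nat.cast_injective this
    refine (wellFounded_iff_isEmpty_descending_chain.1 wf).elim
      ⟨fun i => (l (N (i + 1) + 1)).getD i 0, fun i => ?_⟩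
    have h1 := hlen (i + 1) _ (le_max_left (N (i + 1)) (N (i + 1 + 1)))
    have := (f (max (N (i + 1)) (N (i + 1 + 1)) + 1)).2.1 i (Nat.lt_of_succ_lt h1) h1
    rwa [hval i _ (le_max_left _ _), hval (i + 1) _ (le_max_right _ _)] at this
  have := e.trichotomous
  have := e.isTrans
  have wo : IsWellOrder S fun a b => r a.1 b.1 := { wf := hwf }
  have hc : IsComputableOrdinal (type fun a b : S => r a.1 b.1) :=
    ⟨S, r, lim_zero.1 ((hW.comp (by fun_prop)).and (Lim.eq (by fun_prop) (by fun_prop))),
      lim_zero.1 (hKB.comp (f := fun z : ℕ × ℕ => (dec (List ℕ) z.1, dec (List ℕ) z.2))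
        (by fun_prop)), wo, rfl⟩
  have main : ∀ (β : Ordinal.{0}) (l : List ℕ) x (a : S), dec (List ℕ) a.1 = l ++ [x] → G β x →
      β ≤ typein (fun a b : S => r a.1 b.1) a := by
    intro β
    induction β using WellFoundedLT.induction with
    | ind β ih =>
      intro l x a ha hx
      refine le_of_forall_lt fun γ hγ => ?_
      obtain ⟨y, h1, h2⟩ := hG β x hx γ hγ
      have hWa : W (l ++ [x]) := ha ▸ a.2.1
      have hb : Encodable.encode (l ++ [x] ++ [y]) ∈ S := by
        refine ⟨?_, by rw [dec_encode]⟩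
        rw [dec_encode]
        intro i _ hi
        by_cases hi' : i + 1 < (l ++ [x]).length
        · have := hWa i (by omega) hi'
          rwa [List.getD_append _ _ _ _ hi',
            List.getD_append (l ++ [x]) _ _ i (by omega)]
        · obtain rfl : i = l.length := by
            simp at hi hi'
            omega
          simpa [List.getD_eq_getElem?_getD] using h1
      refine (ih γ hγ (l ++ [x]) y ⟨_, hb⟩ (dec_encode _) h2).trans_lt
        ((typein_lt_typein _).2 ?_)
      change KB (dec (List ℕ) (Encodable.encode (l ++ [x] ++ [y]))) (dec (List ℕ) a.1)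
      rw [dec_encode, ha]
      exact ⟨(l ++ [x]).length, by simp, fun j hj => ⟨hj, List.getD_append _ _ _ _ hj⟩,
        Or.inl le_rfl⟩
  have hx : Encodable.encode [x] ∈ S := ⟨by rw [dec_encode]; intro i _ hi; simp at hi,
    by rw [dec_encode]⟩
  exact hc.of_le ((main β [] x ⟨_, hx⟩ (dec_encode _) h).trans (typein_lt_type _ _).le)

end Pool.Agent.Lib.MP_6cbb02_lc
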